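import Pool.Agent.T9h54.FF.Spec3

/-!
# Project FF, fourth part: the whole range `1/2 ≤ a`: all but few fractions of each denominator
-/

set_option autoImplicit false

namespace Pool.Agent.T9h54.FF

open Finset

/-- (E1I) = (E1H) for `1/2 < β`, `8(1-β)/(3-2β) < e`: the proof of helper73 (`T9h73/FF/E1h.lean`) with other
parameters: `e < 2` WLOG, `u = (2-e)/(2β-1)`, `v = e/(2-2β)`, `x = 1/(2β)`; the hypothesis says `2u < v`, and `x < v`;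
`k = 1` for `t ≥ u'`, otherwise the least `k` with `k t ≥ u'` (then `k t < u' + t < 2u' ≤ v'`). -/
def S_E1I : Prop := ∀ (ρ : ℂ) (e : ℝ), 1 / 2 < ρ.re → ρ.re < 1 →
  8 * (1 - ρ.re) / (3 - 2 * ρ.re) < e → ∃ C : ℝ, ∀ R : ℕ, 1 ≤ R → Cnt ρ R ≤ C * (R : ℝ) ^ e

/-- (E2K3) as (E2K2) (helper31), from any exponent `e < f + 1`. -/
def S_E2K3 : Prop := ∀ (q : ℕ) [NeZero q] (ρ : ℂ) (f e C : ℝ), 0 < f → e < f + 1 →
  1 / 2 < ρ.re → ρ.re < 1 → (∀ R : ℕ, 1 ≤ R → Cnt ρ R ≤ C * (R : ℝ) ^ e) →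
  ∃ δ : ℝ, 0 < δ ∧ ∀ K : ℕ, ∃ P : ℕ, P.Prime ∧ K < P ∧ ¬ P ∣ q ∧ ∀ [NeZero (q * P)],
    (Set.ncard {χ : DirichletCharacter ℂ (q * P) | DirichletCharacter.LFunction χ ρ = 0} : ℝ) ≤
      (P : ℝ) ^ (f - δ)

/-- (UP) uncertainty principle: a nonzero combination of the characters of `B` is nonzero at at least
`φ(Q) / card B` units. Proof: with `f = ∑_{χ ∈ B} g χ χ`, `∑_u |f u|² = φ(Q) ∑ |g|²` (orthogonality) and
`|f u|² ≤ card B ∑ |g|²` (Cauchy-Schwarz). -/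
def S_UP : Prop := ∀ (Q : ℕ) [NeZero Q] (B : Finset (DirichletCharacter ℂ Q))
  (g : DirichletCharacter ℂ Q → ℂ) (J : Finset (ZMod Q)ˣ), J.card * B.card < Q.totient →
  (∀ u : (ZMod Q)ˣ, u ∉ J → ∑ χ ∈ B, g χ * χ (u : ZMod Q) = 0) → ∀ χ ∈ B, g χ = 0

end Pool.Agent.T9h54.FF
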