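import Pool.Agent.T9h54.FF.Few
import Pool.Agent.T9h89.FF.E1i
import Pool.Agent.T9h22.FF.E2k3
import Pool.Agent.T9h65.FF.Up

/-!
# Project FF: all but few fractions, final form
-/

set_option autoImplicit false

namespace Pool.Agent.T9h54.FF

open Filter
open Pool.Agent.T9h54.LZ

theorem finE {a κ : ℝ} (ha : 1 / 2 ≤ a) (hκ1 : κ < 1) (hκ : κ ≤ 2 * (2 * a - 1) / (3 - 2 * a))
    (h : ∀ᶠ Q : ℕ in atTop, (Set.ncard {j : ℕ | 1 ≤ j ∧ j ≤ Q ∧ j.Coprime Q ∧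
      ¬ GrowthAt a ((j : ℝ) / (Q : ℝ))} : ℝ) ≤ (Q : ℝ) ^ κ) : ZeroFree a :=
  topE Pool.Agent.T9h89.FF.e1i Pool.Agent.T9h22.FF.e2k3 Pool.Agent.T9h65.FF.up ha hκ1 hκ h

end Pool.Agent.T9h54.FF
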