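import Pool.Agent.T9h54.LZ.V

/-!
# Project FF (few fractions; MP_b6b996_nt): one fraction of each denominator is enough

`F_R(x) = ∑_{n ≤ R} μ(n) e(nx)`. Theorem (1). Let `a ≥ 5/6` and choose ONE reduced fraction `j_Q / Q` for each (large)
denominator `Q`, arbitrarily. If the growth exponent of `F_R(j_Q / Q)` is `≤ a` for all `Q` (no uniformity in `Q`), no
Dirichlet L-function has a zero with real part `> a`. (2) Let `1/2 < κ ≤ 1`, `a ≥ (13 - 6κ) / (14 - 4κ)`: the same if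
the growth exponent is `≤ a` at the reduced fractions `j / Q`, `A_Q < j ≤ A_Q + Q^κ`, `A_Q` arbitrary (`κ = 1/2`: `5/6`,
`κ = 1`: `7/10`). (3) Power saving with one exponent at one fraction of each denominator iff uniform power saving on the
circle iff zero-free half plane.

Proof of (1). `L(ρ, χ₀) = 0`, `χ₀` primitive mod `q`, `Re ρ > 5/6`. By (E1G) for most primes `P` all characters modulo
`qP` which vanish at `ρ` come from characters modulo `q` (GP). The polar part at `ρ` of `∑ μ(n) e(nj/(qP)) n^(-s)` is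
`∑_χ χ(j) c_χ hf(χ(P), P, ρ)`, sum over the characters mod `q`. Let `P → ∞` in a fixed class `b` mod `q`: (ALG) gives
`∑_χ χ(j) χ(b)^k c_χ = 0` for all `k`. With several primes `P_1, ..., P_r` in the classes `b_1, ..., b_r` (one after the
other) `∑_χ χ(y) c_χ = 0` for all `y` in a coset of the group generated by the `b_i`, so `c = 0`.
-/

set_option autoImplicit false

namespace Pool.Agent.T9h54.FF

open Finset

/-- the local factor of a new prime `P` -/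
noncomputable def hf (z : ℂ) (P : ℕ) (s : ℂ) : ℂ :=
  -(z⁻¹ + ((P : ℂ) - 1) * (P : ℂ) ^ (-s)) / (1 - z * (P : ℂ) ^ (-s))

/-- (E1G) = (E1) of LZ with the general exponent: `T9h85/LZ/E1.lean`, with `N = ⌈R^x⌉`, `x` near
`2 / (3 - 2β)`, so that `2 - x(2β-1)` and `4x(1-β)` are both near `8(1-β)/(3-2β)` (`< 3/2` as `β > 7/10`; and
`x(2β-1) > 1/2` as `β > 7/10`). -/
def S_E1G : Prop := ∀ (ρ : ℂ) (e : ℝ), 7 / 10 < ρ.re → ρ.re < 1 → 8 * (1 - ρ.re) / (3 - 2 * ρ.re) < e →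
  ∃ C : ℝ, ∀ R : ℕ, 1 ≤ R →
  ∑ r ∈ range R, (Set.ncard {χ : DirichletCharacter ℂ (r + 1) |
    χ.IsPrimitive ∧ DirichletCharacter.LFunction χ ρ = 0} : ℝ) ≤ C * (R : ℝ) ^ e

/-- (GP) from (E1G): for `Re ρ > 5/6` the exponent `8(1-β)/(3-2β)` is `< 1`. A prime `P > max(M, K)`, `P ≡ b` mod
`q`, is bad if some character mod `MP` vanishes at `ρ` and is not induced from `M`; then its primitive character has
a conductor `r` with `P | r | MP`. Different bad `P` give different `r`, so at most `C (MY)^e` bad `P ≤ Y`, `e < 1`, and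
`∑_{P bad} (log P) / P` converges. But `∑_{P ≡ b} (log P) / P` diverges
(`ArithmeticFunction.vonMangoldt.not_summable_residueClass_prime_div`). Compare helper65's E2. -/
def S_GP : Prop := ∀ (q M : ℕ) [NeZero q] [NeZero M] (b : ℕ) (ρ : ℂ), 5 / 6 < ρ.re → ρ.re < 1 → b.Coprime q →
  ∀ K : ℕ, ∃ P : ℕ, P.Prime ∧ K < P ∧ ¬ P ∣ M ∧ P ≡ b [MOD q] ∧
    ∀ [NeZero (M * P)] (χ : DirichletCharacter ℂ (M * P)), DirichletCharacter.LFunction χ ρ = 0 →
      ∃ ψ : DirichletCharacter ℂ M, χ = DirichletCharacter.changeLevel (dvd_mul_right M P) ψ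

/-- (E2K) from (E1G), as (E2) from (E1) (helper65): `8(1-β)/(3-2β) < κ + 1/2` iff `β > (13-6κ)/(14-4κ)`. -/
def S_E2K : Prop := ∀ (q : ℕ) [NeZero q] (ρ : ℂ) (κ : ℝ), 1 / 2 < κ → κ ≤ 1 →
  (13 - 6 * κ) / (14 - 4 * κ) < ρ.re → ρ.re < 1 → ∃ δ : ℝ, 0 < δ ∧ ∀ K : ℕ,
  ∃ P : ℕ, P.Prime ∧ K < P ∧ ¬ P ∣ q ∧ ∀ [NeZero (q * P)],
    (Set.ncard {χ : DirichletCharacter ℂ (q * P) | DirichletCharacter.LFunction χ ρ = 0} : ℝ) ≤
      (P : ℝ) ^ (κ - 1 / 2 - δ)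

/-- (GK) = (G) of LZ for short intervals of length `Q^κ` (helper75: `T9h75/LZ/G.lean`). -/
def S_GK : Prop := ∀ (q : ℕ) [NeZero q] (κ δ : ℝ), 1 / 2 < κ → κ ≤ 1 → 0 < δ → ∃ K : ℕ,
  ∀ P : ℕ, P.Prime → K < P → ∀ (A : ℕ) (B : Finset (DirichletCharacter ℂ (q * P))),
    (B.card : ℝ) ≤ (P : ℝ) ^ (κ - 1 / 2 - δ) → ∀ g : DirichletCharacter ℂ (q * P) → ℂ,
    (∀ j : ℕ, j.Coprime (q * P) → A < j → (j : ℝ) ≤ (A : ℝ) + ((q * P : ℕ) : ℝ) ^ κ →
      ∑ χ ∈ B, g χ * χ (j : ZMod (q * P)) = 0) → ∀ χ ∈ B, g χ = 0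

/-- (ALG) Proof. Put `w = P^(-ρ)`, `N(w) = ∑_z U z / (1 - z w)`. As `z⁻¹/(1 - zw) = z⁻¹ + w/(1 - zw)`, the relation
is `κ + P w N(w) = 0`, `κ = ∑ U z z⁻¹`, i.e. `N(w) = -κ P^(ρ-1)` for infinitely many `P`. `N` is analytic at `0`. If
`N` is not identically zero near `0`, `N(w) ~ n w^k` with `n ≠ 0`; `k ≥ 1` as `P^(ρ-1) → 0`; but `|w^k| = P^(-kβ)`
and `|P^(ρ-1)| = P^(β-1)`, `kβ > 1-β`: contradiction unless `κ = 0`, and then too. So `N = 0` near `0`, and the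
`U z` vanish (different `z`; partial fractions, or all derivatives at `0`: `∑ U z z^k = 0`, Vandermonde). -/
def S_ALG : Prop := ∀ ρ : ℂ, 1 / 2 < ρ.re → ρ.re < 1 → ∀ (s : Finset ℂ) (U : ℂ → ℂ), (∀ z ∈ s, ‖z‖ = 1) →
  ∀ S : Set ℕ, S.Infinite → (∀ P ∈ S, ∑ z ∈ s, U z * hf z P ρ = 0) → ∀ z ∈ s, U z = 0

/-- (EL) Gauss sums of a character lifted by one new prime: `LZ/W.lean` (`cc_lift`, `EE_lift`) without the
hypothesis that `χ` is primitive: `cc X n = (if P ∣ n then P * cc χ (n / P) else 0) - χ⁻¹(P) * cc χ n` for the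
lift `X` (in `cc_lift` replace `χ(m) * gaussSum` by `cc χ m`), and
`μ(Pd) cc X (Pd) = -μ(d) (P - 1) cc χ d` for `d ∣ M`. -/
def S_EL : Prop := ∀ (M P : ℕ) [NeZero M] [NeZero (M * P)], P.Prime → ¬ P ∣ M →
  ∀ (χ : DirichletCharacter ℂ M) (s : ℂ),
    LZ.EE (DirichletCharacter.changeLevel (dvd_mul_right M P) χ) s =
      -(χ⁻¹ (P : ZMod M) + ((P : ℂ) - 1) * (P : ℂ) ^ (-s)) * LZ.EE χ s

end Pool.Agent.T9h54.FF
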