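import Pool.Agent.T9h54.FF.Spec2

/-!
# Project FF, third part: a better zero density estimate at a point (threshold 11/14 instead of 5/6)
-/

set_option autoImplicit false

namespace Pool.Agent.T9h54.FF

open Finset

/-- number of the primitive characters of conductor at most `R` whose L-function vanishes at `ρ` -/
noncomputable def Cnt (ρ : ℂ) (R : ℕ) : ℝ :=
  ∑ r ∈ range R, (Set.ncard {χ : DirichletCharacter ℂ (r + 1) |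
    χ.IsPrimitive ∧ DirichletCharacter.LFunction χ ρ = 0} : ℝ)

/-- (E1H) Let `β = Re ρ`. WLOG `e < 3/2`. Take `ε` small, `X = R^ε`, `N = R^x`, `x` slightly larger than `1/(2β)`.
As in (E1) (Polya-Vinogradov and partial summation, helper85 `LZ/E1.lean`) but with the SHORT mollifier
`∑_{d ≤ X} μ(d) χ(d) d^(-ρ)`, `|M| ≤ C X^(1-β)`: for `L(ρ, χ) = 0`, `χ` primitive mod `r`, `1 < r ≤ R`,
`1 + ∑_{X < n ≤ NX} a_n χ(n) n^(-ρ) = O(√R log R N^(-β) X^(1-β)) ≤ 1/2`, with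
`a_n = ∑_{d | n, d ≤ X, n/d ≤ N} μ(d)` (`a_1 = 1`, `a_n = 0` for `1 < n ≤ X`), `|a_n| ≤ τ(n)`.
So for some dyadic block `(T, 2T]`, `X ≤ T ≤ N X`: `|B_T(χ)| ≥ c / log R`, `B_T(χ) = ∑_{T<n≤2T} a_n χ(n) n^(-ρ)`.
Put `u = (2-e)/(2β-1)`, `v = e/(2-2β)`, `u'` slightly larger than `u`, `v'` slightly smaller than `v`. The hypotheses
on `e` say `4u/3 < v` and `3/(2β) < v`. Choose `k = 3` if `T^3 ≥ R^u'`, and otherwise the least `k` with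
`T^k ≥ R^u'` (then `T^k ≤ R^u' T ≤ R^(4u'/3)`). So `R^u' ≤ T^k ≤ R^v'`, `k ≤ u'/ε + 1` or `k = 3`. The `k`-th power
`B_T(χ)^k = ∑_{T^k < m ≤ (2T)^k} b_m χ(m) m^(-ρ)`, `|b_m| ≤ C_k m^ε` (`k`-fold convolution, induction on `k`, divisor
bound). Large sieve (`Pool.Agent.Helper112.mult_large_sieve`):
`#χ · (c / log R)^(2k) ≤ C ((2T)^k + R²) (T^k)^(1-2β+ε) ≤ C R^ε' (R^(2 - u'(2β-1)) + R^(v'(2-2β)))`, both `< R^e`.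
(`T` runs over `O(log R)` values.) -/
def S_E1H : Prop := ∀ (ρ : ℂ) (e : ℝ), 2 / 3 < ρ.re → ρ.re < 1 →
  16 * (1 - ρ.re) / (5 - 2 * ρ.re) < e → 3 * (1 - ρ.re) / ρ.re < e →
  ∃ C : ℝ, ∀ R : ℕ, 1 ≤ R → Cnt ρ R ≤ C * (R : ℝ) ^ e

/-- the conclusion of (GP) at the point `ρ` -/
def GPat (ρ : ℂ) : Prop := ∀ (q M : ℕ) [NeZero q] [NeZero M] (b : ℕ), b.Coprime q →
  ∀ K : ℕ, ∃ P : ℕ, P.Prime ∧ K < P ∧ ¬ P ∣ M ∧ P ≡ b [MOD q] ∧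
    ∀ [NeZero (M * P)] (χ : DirichletCharacter ℂ (M * P)), DirichletCharacter.LFunction χ ρ = 0 →
      ∃ ψ : DirichletCharacter ℂ M, χ = DirichletCharacter.changeLevel (dvd_mul_right M P) ψ

open Classical in
/-- the conclusion of (DC) at the point `ρ` -/
def DCat (ρ : ℂ) : Prop := ∀ M : ℕ, M ≠ 0 →
  Summable fun d : ℕ => if ∃ e, e ∣ M ∧ RR ρ (d * e) then 1 / (d : ℝ) else 0

/-- (GP2) as (GP), from any exponent `e < 1` (helper69). -/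
def S_GP2 : Prop := ∀ (ρ : ℂ), 1 / 2 < ρ.re → ρ.re < 1 → ∀ e C : ℝ, e < 1 →
  (∀ R : ℕ, 1 ≤ R → Cnt ρ R ≤ C * (R : ℝ) ^ e) → GPat ρ

/-- (DC2) as (DC), from any exponent `e < 1` (helper69). -/
def S_DC2 : Prop := ∀ (ρ : ℂ), 1 / 2 < ρ.re → ρ.re < 1 → ∀ e C : ℝ, e < 1 →
  (∀ R : ℕ, 1 ≤ R → Cnt ρ R ≤ C * (R : ℝ) ^ e) → DCat ρ

/-- (E2K2) as (E2K), from any exponent `e < κ + 1/2` (helper31). -/
def S_E2K2 : Prop := ∀ (q : ℕ) [NeZero q] (ρ : ℂ) (κ e C : ℝ), 1 / 2 < κ → κ ≤ 1 → e < κ + 1 / 2 →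
  1 / 2 < ρ.re → ρ.re < 1 → (∀ R : ℕ, 1 ≤ R → Cnt ρ R ≤ C * (R : ℝ) ^ e) →
  ∃ δ : ℝ, 0 < δ ∧ ∀ K : ℕ, ∃ P : ℕ, P.Prime ∧ K < P ∧ ¬ P ∣ q ∧ ∀ [NeZero (q * P)],
    (Set.ncard {χ : DirichletCharacter ℂ (q * P) | DirichletCharacter.LFunction χ ρ = 0} : ℝ) ≤
      (P : ℝ) ^ (κ - 1 / 2 - δ)

end Pool.Agent.T9h54.FF
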