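import Pool.Agent.T9h54.FF.Fin2

/-!
# Project FF: the theorems of `LZ/Fin.lean`, `LZ/Top.lean` with the threshold `2/3` instead of `7/10`
-/

set_option autoImplicit false

namespace Pool.Agent.T9h54.FF.Arc

open Finset Filter Topology DirichletCharacter
open Pool.Agent.T9h54.LZ hiding main0 main1 generic generic2 main2 top1 top2 top3 top4

/-- (E2) for `Re ρ > 2/3` -/
def E2T : Prop := ∀ (q : ℕ) [NeZero q] (ρ : ℂ), 2 / 3 < ρ.re → ρ.re < 1 → ∃ δ : ℝ, 0 < δ ∧ ∀ K : ℕ,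
  ∃ P : ℕ, P.Prime ∧ K < P ∧ ¬ P ∣ q ∧ ∀ [NeZero (q * P)],
    (Set.ncard {χ : DirichletCharacter ℂ (q * P) | DirichletCharacter.LFunction χ ρ = 0} : ℝ) ≤
      (P : ℝ) ^ (1 / 2 - δ)

/-- bounds at the rational points of an arc inside `[0, 1]` -/
theorem main0 (hE2 : E2T) (hG : S_G) {a : ℝ} (ha : 2 / 3 ≤ a) (ha1 : a < 1) {α β : ℝ}
    (hα : 0 ≤ α) (hαβ : α < β) (hβ : β ≤ 1)
    (h : ∀ x : ℚ, α < x → (x : ℝ) < β → ∃ C : ℝ, ∀ R : ℕ, 1 ≤ R → ‖F R x‖ ≤ C * (R : ℝ) ^ a)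
    {q : ℕ} [NeZero q] {χ : DirichletCharacter ℂ q} (hχ : χ.IsPrimitive) {ρ : ℂ} (hρ : a < ρ.re)
    (hρ1 : ρ.re < 1) : LFunction χ ρ ≠ 0 := by
  classical
  intro h0
  have hρne : ρ ≠ 1 := by
    rintro rfl
    simp at hρ1
  have ha0 : 0 ≤ a := by linarith
  obtain ⟨δ, hδ, hE⟩ := hE2 q ρ (by linarith) hρ1
  obtain ⟨K, hK⟩ := hG q α β hα hαβ hβ δ hδ
  have hlim : Tendsto (fun P : ℕ => (P : ℝ) ^ (1 - ρ.re)) atTop atTop :=
    (tendsto_rpow_atTop (by linarith)).comp tendsto_natCast_atTop_atTop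
  obtain ⟨K', hK'⟩ := eventually_atTop.1 (hlim.eventually_gt_atTop 2)
  obtain ⟨P, hP, hPK, hPq, hcard⟩ := hE (max K K')
  have : NeZero P := ⟨hP.ne_zero⟩
  have hQ : NeZero (q * P) := ⟨mul_ne_zero (NeZero.ne q) hP.ne_zero⟩
  have hQ0 : (0 : ℝ) < ((q * P : ℕ) : ℝ) := by
    exact_mod_cast Nat.pos_of_ne_zero hQ.out
  have hc := @hcard hQ
  obtain ⟨B, hB⟩ : ∃ B : Finset (DirichletCharacter ℂ (q * P)),
      B = univ.filter fun χ => LFunction χ ρ = 0 := ⟨_, rfl⟩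
  have hBc : (B.card : ℝ) ≤ (P : ℝ) ^ (1 / 2 - δ) := by
    have e : Set.ncard {χ : DirichletCharacter ℂ (q * P) | LFunction χ ρ = 0} = B.card := by
      rw [← Set.ncard_coe_finset, hB]
      congr 1
      ext χ
      simp
    rw [← e]
    exact hc
  set J : Set (ZMod (q * P))ˣ := {b | α < ((b : ZMod (q * P)).val : ℝ) / ((q * P : ℕ) : ℝ) ∧
    ((b : ZMod (q * P)).val : ℝ) / ((q * P : ℕ) : ℝ) < β} with hJd
  have hJ : ∀ b ∈ J, ∃ C : ℝ, ∀ R : ℕ, 1 ≤ R →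
      ‖∑ n ∈ Icc 1 R, mu n * ad (b : ZMod (q * P)) n‖ ≤ C * (R : ℝ) ^ a := by
    intro b hb
    obtain ⟨hb1, hb2⟩ := hb
    obtain ⟨C, hC⟩ := h (((b : ZMod (q * P)).val : ℚ) / ((q * P : ℕ) : ℚ)) (by push_cast at hb1 ⊢; exact hb1)
      (by push_cast at hb2 ⊢; exact hb2)
    refine ⟨C, fun R hR => ?_⟩
    have h1 := hC R hR
    have h2 := F_eq (Q := q * P) R (b : ZMod (q * P)).val
    rw [ZMod.natCast_zmod_val] at h2
    rw [← h2]
    push_cast at h1 ⊢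
    exact h1
  have hL : LFunction (changeLevel (dvd_mul_right q P) χ) ρ = 0 := by
    rw [LFunction_changeLevel (dvd_mul_right q P) χ (Or.inr hρne), h0, zero_mul]
  obtain ⟨g, ⟨χ₁, hg1⟩, hg2, hg3⟩ := pole ha0 ha1 hρ hρne J hJ
    (changeLevel (dvd_mul_right q P) χ) hL
    (EE_lift_ne hP hPq hχ (hK' P (by omega)))
  have hind : ∀ χ ∈ B, g χ = 0 := by
    refine hK P hP (by omega) B hBc g fun j hj hj1 hj2 => ?_
    have hjlt : j < q * P := by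
      have e1 : (j : ℝ) / ((q * P : ℕ) : ℝ) < 1 := lt_of_lt_of_le hj2 hβ
      rw [div_lt_one hQ0] at e1
      exact_mod_cast e1
    have hbj : ((ZMod.unitOfCoprime j hj : (ZMod (q * P))ˣ) : ZMod (q * P)) = (j : ZMod (q * P)) :=
      ZMod.coe_unitOfCoprime j hj
    have hval : ((ZMod.unitOfCoprime j hj : (ZMod (q * P))ˣ) : ZMod (q * P)).val = j := by
      rw [hbj, ZMod.val_natCast, Nat.mod_eq_of_lt hjlt]
    have h3 := hg3 (ZMod.unitOfCoprime j hj) (by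
      rw [hJd]
      simp only [Set.mem_setOf_eq]
      rw [hval]
      exact ⟨hj1, hj2⟩)
    rw [hbj] at h3
    rw [← h3]
    refine Finset.sum_subset (Finset.subset_univ B) fun χ _ hχ' => ?_
    have h4 : LFunction χ ρ ≠ 0 := by
      intro h4
      apply hχ'
      rw [hB, mem_filter]
      exact ⟨mem_univ _, h4⟩
    rw [hg2 χ h4, zero_mul]
  apply hg1
  by_cases h5 : LFunction χ₁ ρ = 0
  · exact hind χ₁ (by rw [hB, mem_filter]; exact ⟨mem_univ _, h5⟩)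
  · exact hg2 χ₁ h5

/-- **Bounds at the rational points of an arc and zeros.** -/
theorem main1 (hE2 : E2T) (hG : S_G) {a : ℝ} (ha : 2 / 3 ≤ a) (ha1 : a < 1) {α β : ℝ}
    (hαβ : α < β)
    (h : ∀ x : ℚ, α < x → (x : ℝ) < β → ∃ C : ℝ, ∀ R : ℕ, 1 ≤ R → ‖F R x‖ ≤ C * (R : ℝ) ^ a) :
    ZeroFree a := by
  intro q _ χ s hs hs1 h0
  -- the translate of the arc
  obtain ⟨c, hc1, hc2⟩ := exists_between hαβ
  set m : ℤ := ⌊c⌋ with hm
  set α' : ℝ := Int.fract c with hα'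
  set β' : ℝ := min (α' + (β - c)) 1 with hβ'
  have hα0 : 0 ≤ α' := Int.fract_nonneg c
  have hα1 : α' < 1 := Int.fract_lt_one c
  have hcm : c = α' + m := by rw [hα', hm, Int.fract_add_floor]
  have hαβ' : α' < β' := lt_min (by linarith) hα1
  have hβ1 : β' ≤ 1 := min_le_right _ _
  have h' : ∀ x : ℚ, α' < x → (x : ℝ) < β' → ∃ C : ℝ, ∀ R : ℕ, 1 ≤ R →
      ‖F R x‖ ≤ C * (R : ℝ) ^ a := by
    intro x hx1 hx2
    have hx3 : (x : ℝ) < α' + (β - c) := lt_of_lt_of_le hx2 (min_le_left _ _)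
    obtain ⟨C, hC⟩ := h (x + m) (by push_cast; linarith) (by push_cast; linarith)
    refine ⟨C, fun R hR => ?_⟩
    have h1 := hC R hR
    push_cast at h1
    rw [F_add_int] at h1
    exact h1
  by_cases hs2 : s.re < 1
  · -- the primitive character
    have : NeZero χ.conductor := ⟨fun hc => by
      have := χ.conductor_dvd_level
      rw [hc, zero_dvd_iff] at this
      exact NeZero.ne q this⟩
    have h2 : LFunction χ.primitiveCharacter s = 0 := by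
      have h3 := Pool.Agent.T9h65.LZ.zero_iff χ.conductor_dvd_level χ.primitiveCharacter
        (ρ := s) (by linarith) hs1
      rw [changeLevel_primitiveCharacter] at h3
      exact h3.1 h0
    exact main0 hE2 hG ha ha1 hα0 hαβ' hβ1 h' χ.primitiveCharacter_isPrimitive hs hs2 h2
  · exact LFunction_ne_zero_of_one_le_re χ (Or.inr hs1) (not_lt.1 hs2) h0

/-- **Generic points.** -/
theorem generic (hE2 : E2T) (hG : S_G) {b : ℝ} (hb : 2 / 3 ≤ b) (hb1 : b < 1)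
    (hz : ¬ ZeroFree b) : ∀ᶠ x in residual ℝ, ∀ C : ℝ, ∃ R : ℕ, 1 ≤ R ∧ C * (R : ℝ) ^ b < ‖F R x‖ := by
  have h1 : ∀ k : ℕ, ∀ᶠ x in residual ℝ,
      x ∉ {x : ℝ | ∀ R : ℕ, 1 ≤ R → ‖F R x‖ ≤ (k : ℝ) * (R : ℝ) ^ b} := by
    intro k
    have hcl := isClosed_bound (k : ℝ) b
    have hint : interior {x : ℝ | ∀ R : ℕ, 1 ≤ R → ‖F R x‖ ≤ (k : ℝ) * (R : ℝ) ^ b} = ∅ := by
      by_contra hne
      obtain ⟨x, hx⟩ := Set.nonempty_iff_ne_empty.2 hne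
      obtain ⟨ε, hε, hball⟩ := Metric.isOpen_iff.1 isOpen_interior x hx
      apply hz
      refine main1 hE2 hG hb hb1 (α := x - ε) (β := x + ε) (by linarith) fun y hy1 hy2 => ?_
      have hy : (y : ℝ) ∈ Metric.ball x ε := by
        rw [Real.ball_eq_Ioo]
        exact ⟨hy1, hy2⟩
      exact ⟨k, interior_subset (hball hy)⟩
    have hop : IsOpen {x : ℝ | ∀ R : ℕ, 1 ≤ R → ‖F R x‖ ≤ (k : ℝ) * (R : ℝ) ^ b}ᶜ :=
      hcl.isOpen_compl
    have hd : Dense {x : ℝ | ∀ R : ℕ, 1 ≤ R → ‖F R x‖ ≤ (k : ℝ) * (R : ℝ) ^ b}ᶜ :=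
      interior_eq_empty_iff_dense_compl.1 hint
    exact residual_of_dense_open hop hd
  filter_upwards [eventually_countable_forall.2 h1] with x hx C
  obtain ⟨k, hk⟩ := exists_nat_ge C
  have h2 : ¬ ∀ R : ℕ, 1 ≤ R → ‖F R x‖ ≤ (k : ℝ) * (R : ℝ) ^ b := hx k
  push Not at h2
  obtain ⟨R, hR, hlt⟩ := h2
  refine ⟨R, hR, lt_of_le_of_lt ?_ hlt⟩
  exact mul_le_mul_of_nonneg_right hk (Real.rpow_nonneg (Nat.cast_nonneg R) _)

/-- power saving at the point `x` -/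
def Saving (x : ℝ) : Prop := ∃ δ : ℝ, 0 < δ ∧ ∃ C : ℝ, ∀ R : ℕ, 1 ≤ R → ‖F R x‖ ≤ C * (R : ℝ) ^ (1 - δ)

/-- **Pointwise power saving on an open set gives a zero-free half plane.** -/
theorem main2 (hE2 : E2T) (hG : S_G) {U : Set ℝ} (hU : IsOpen U) (hne : U.Nonempty)
    (h : ∀ x ∈ U, Saving x) : ∃ a : ℝ, a < 1 ∧ ZeroFree a := by
  obtain ⟨E, hE⟩ : ∃ E : ℕ → Set ℝ, E = fun k : ℕ => {x : ℝ | ∀ R : ℕ, 1 ≤ R →
      ‖F R x‖ ≤ (k : ℝ) * (R : ℝ) ^ (1 - 1 / ((k : ℝ) + 1))} := ⟨_, rfl⟩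
  have hcl : ∀ k, IsClosed (E k) := fun k => by
    rw [hE]
    exact isClosed_bound _ _
  have hcov : ⋃ k, (E k ∪ Uᶜ) = Set.univ := by
    rw [Set.eq_univ_iff_forall]
    intro x
    rw [Set.mem_iUnion]
    by_cases hx : x ∈ U
    · obtain ⟨δ, hδ, C, hC⟩ := h x hx
      obtain ⟨k, hk⟩ := exists_nat_ge (max C (1 / δ))
      refine ⟨k, Or.inl ?_⟩
      rw [hE]
      intro R hR
      have hR1 : (1 : ℝ) ≤ R := by exact_mod_cast hR
      have hk1 : C ≤ k := (le_max_left _ _).trans hk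
      have hk2 : 1 / δ ≤ k := (le_max_right _ _).trans hk
      have hkpos : (0 : ℝ) < k + 1 := by positivity
      have hk3 : 1 / ((k : ℝ) + 1) ≤ δ := by
        rw [div_le_iff₀ hkpos]
        have : 1 ≤ δ * k := by
          rw [div_le_iff₀ hδ] at hk2
          linarith
        nlinarith
      calc ‖F R x‖ ≤ C * (R : ℝ) ^ (1 - δ) := hC R hR
        _ ≤ (k : ℝ) * (R : ℝ) ^ (1 - 1 / ((k : ℝ) + 1)) := by
            refine mul_le_mul hk1 (Real.rpow_le_rpow_of_exponent_le hR1 (by linarith))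
              (Real.rpow_nonneg (by linarith) _) (Nat.cast_nonneg k)
    · exact ⟨0, Or.inr hx⟩
  have hd := dense_iUnion_interior_of_closed (f := fun k => E k ∪ Uᶜ)
    (fun k => (hcl k).union hU.isClosed_compl) hcov
  obtain ⟨x, hxU, hx⟩ := hd.inter_open_nonempty U hU hne
  rw [Set.mem_iUnion] at hx
  obtain ⟨k, hk⟩ := hx
  have hop : IsOpen (interior (E k ∪ Uᶜ) ∩ U) := isOpen_interior.inter hU
  obtain ⟨ε, hε, hball⟩ := Metric.isOpen_iff.1 hop x ⟨hk, hxU⟩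
  set a : ℝ := max (2 / 3) (1 - 1 / ((k : ℝ) + 1)) with ha
  have hkp : (0 : ℝ) < 1 / ((k : ℝ) + 1) := by positivity
  have ha1 : a < 1 := max_lt (by norm_num) (by linarith)
  refine ⟨a, ha1, main1 hE2 hG (le_max_left _ _) ha1 (α := x - ε) (β := x + ε) (by linarith)
    fun y hy1 hy2 => ⟨k, fun R hR => ?_⟩⟩
  have hy : (y : ℝ) ∈ Metric.ball x ε := by
    rw [Real.ball_eq_Ioo]
    exact ⟨hy1, hy2⟩
  have hyU := hball hy
  have hyE : (y : ℝ) ∈ E k := by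
    rcases interior_subset hyU.1 with h' | h'
    · exact h'
    · exact absurd hyU.2 h'
  rw [hE] at hyE
  have hR1 : (1 : ℝ) ≤ R := by exact_mod_cast hR
  refine (hyE R hR).trans (mul_le_mul_of_nonneg_left ?_ (Nat.cast_nonneg k))
  exact Real.rpow_le_rpow_of_exponent_le hR1 (le_max_right _ _)

/-- **Generic points, no power saving.** -/
theorem generic2 (hE2 : E2T) (hG : S_G) (hz : ¬ ∃ a : ℝ, a < 1 ∧ ZeroFree a) :
    ∀ᶠ x in residual ℝ, ¬ Saving x := by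
  have h1 : ∀ k : ℕ, ∀ᶠ x in residual ℝ, ∀ C : ℝ, ∃ R : ℕ, 1 ≤ R ∧
      C * (R : ℝ) ^ (max (2 / 3) (1 - 1 / ((k : ℝ) + 1))) < ‖F R x‖ := by
    intro k
    have hkp : (0 : ℝ) < 1 / ((k : ℝ) + 1) := by positivity
    have ha1 : max (2 / 3) (1 - 1 / ((k : ℝ) + 1)) < 1 := max_lt (by norm_num) (by linarith)
    exact generic hE2 hG (le_max_left _ _) ha1 fun h => hz ⟨_, ha1, h⟩
  filter_upwards [eventually_countable_forall.2 h1] with x hx
  rintro ⟨δ, hδ, C, hC⟩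
  obtain ⟨k, hk⟩ := exists_nat_ge (1 / δ)
  obtain ⟨R, hR, hlt⟩ := hx k (max C 0)
  have hR1 : (1 : ℝ) ≤ R := by exact_mod_cast hR
  have hkpos : (0 : ℝ) < k + 1 := by positivity
  have hk3 : 1 / ((k : ℝ) + 1) ≤ δ := by
    rw [div_le_iff₀ hkpos]
    have : 1 ≤ δ * k := by
      rw [div_le_iff₀ hδ] at hk
      linarith
    nlinarith
  have h2 := hC R hR
  have h3 : C * (R : ℝ) ^ (1 - δ) ≤ max C 0 * (R : ℝ) ^ (max (2 / 3) (1 - 1 / ((k : ℝ) + 1))) := by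
    refine mul_le_mul (le_max_left _ _) (Real.rpow_le_rpow_of_exponent_le hR1 ?_)
      (Real.rpow_nonneg (by linarith) _) (le_max_right _ _)
    exact le_trans (by linarith) (le_max_right _ _)
  linarith

theorem top1 (hE2 : E2T) (hG : S_G) {a : ℝ} (ha : 2 / 3 ≤ a) {α β : ℝ}
    (hαβ : α < β) (h : ∀ x : ℚ, α < x → (x : ℝ) < β → GrowthAt a x) : ZeroFree a := by
  intro q _ χ s hs hs1 h0
  by_cases hs2 : s.re < 1
  · set a' : ℝ := (a + s.re) / 2 with ha'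
    have h1 : 2 / 3 ≤ a' := by rw [ha']; linarith
    have h2 : a' < 1 := by rw [ha']; linarith
    have h3 : a < a' := by rw [ha']; linarith
    have h4 : a' < s.re := by rw [ha']; linarith
    refine main1 hE2 hG h1 h2 hαβ (fun x hx1 hx2 => ?_) q χ s h4 hs1 h0
    obtain ⟨C, hC⟩ := h x hx1 hx2 (a' - a) (by linarith)
    refine ⟨C, fun R hR => ?_⟩
    have := hC R hR
    rwa [add_sub_cancel] at this
  · exact LFunction_ne_zero_of_one_le_re χ (Or.inr hs1) (not_lt.1 hs2) h0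

theorem top2 (hE2 : E2T) (hG : S_G) : ∀ᶠ x in residual ℝ, ∀ (q : ℕ) [NeZero q]
    (χ : DirichletCharacter ℂ q) (s : ℂ), 2 / 3 < s.re → s ≠ 1 → LFunction χ s = 0 →
    ∀ b : ℝ, b < s.re → ∀ C : ℝ, ∃ᶠ R : ℕ in atTop, C * (R : ℝ) ^ b < ‖F R x‖ := by
  have h1 : ∀ b : ℚ, ∀ᶠ x in residual ℝ, 2 / 3 ≤ (b : ℝ) → (b : ℝ) < 1 → ¬ ZeroFree b →
      ∀ C : ℝ, ∃ R : ℕ, 1 ≤ R ∧ C * (R : ℝ) ^ (b : ℝ) < ‖F R x‖ := by
    intro b
    by_cases hb : 2 / 3 ≤ (b : ℝ) ∧ (b : ℝ) < 1 ∧ ¬ ZeroFree b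
    · filter_upwards [generic hE2 hG hb.1 hb.2.1 hb.2.2] with x hx _ _ _
      exact hx
    · exact Eventually.of_forall fun x h1 h2 h3 => absurd ⟨h1, h2, h3⟩ hb
  filter_upwards [eventually_countable_forall.2 h1] with x hx
  intro q _ χ s hs hs1 h0 b hb C
  have hs2 : s.re < 1 := by
    by_contra hc
    exact LFunction_ne_zero_of_one_le_re χ (Or.inr hs1) (not_lt.1 hc) h0
  obtain ⟨b', hb1, hb2⟩ := exists_rat_btwn (max_lt hb hs)
  have hb3 : b < (b' : ℝ) := lt_of_le_of_lt (le_max_left _ _) hb1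
  have hb4 : 2 / 3 < (b' : ℝ) := lt_of_le_of_lt (le_max_right _ _) hb1
  have h2 := freq_of (x := x) (b := (b' : ℝ)) (by linarith)
    (hx b' hb4.le (by linarith) fun hz => hz q χ s hb2 hs1 h0) (max C 0)
  refine (h2.and_eventually (eventually_ge_atTop 1)).mono fun R ⟨hR, hR1⟩ => lt_of_le_of_lt ?_ hR
  have hR2 : (1 : ℝ) ≤ R := by exact_mod_cast hR1
  exact mul_le_mul (le_max_left _ _) (Real.rpow_le_rpow_of_exponent_le hR2 hb3.le)
    (Real.rpow_nonneg (by linarith) _) (le_max_right _ _)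

theorem top3 (hE2 : E2T) (hG : S_G) (hM1 : S_M1) (hM2 : S_M2) {U : Set ℝ} (hU : IsOpen U)
    (hne : U.Nonempty) :
    List.TFAE [∀ x ∈ U, Saving x, Uniform, ∃ a : ℝ, a < 1 ∧ ZeroFree a] := by
  tfae_have 1 → 3 := fun h => main2 hE2 hG hU hne h
  tfae_have 3 → 2 := fun h => Pool.Agent.T9h53.LZ.m3 hM1 hM2 h
  tfae_have 2 → 1 := fun h x _ => saving_of_uniform h x
  tfae_finish

theorem top4 (hE2 : E2T) (hG : S_G) (hM1 : S_M1) (hM2 : S_M2) :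
    Uniform ∨ ∀ᶠ x in residual ℝ, ¬ Saving x := by
  by_cases h : ∃ a : ℝ, a < 1 ∧ ZeroFree a
  · exact Or.inl (Pool.Agent.T9h53.LZ.m3 hM1 hM2 h)
  · exact Or.inr (generic2 hE2 hG h)

/-- everything from (E1H) and (M2) -/
theorem topOf (hE : S_E1H) (hM2 : S_M2) :
    (∀ a : ℝ, 2 / 3 ≤ a → ∀ α β : ℝ, α < β →
      (∀ x : ℚ, α < x → (x : ℝ) < β → GrowthAt a x) → ZeroFree a) ∧
    (∀ᶠ x in residual ℝ, ∀ (q : ℕ) [NeZero q] (χ : DirichletCharacter ℂ q) (s : ℂ),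
      2 / 3 < s.re → s ≠ 1 → LFunction χ s = 0 →
      ∀ b : ℝ, b < s.re → ∀ C : ℝ, ∃ᶠ R : ℕ in atTop, C * (R : ℝ) ^ b < ‖F R x‖) ∧
    (∀ U : Set ℝ, IsOpen U → U.Nonempty →
      List.TFAE [∀ x ∈ U, Saving x, Uniform, ∃ a : ℝ, a < 1 ∧ ZeroFree a]) ∧
    (Uniform ∨ ∀ᶠ x in residual ℝ, ¬ Saving x) := by
  have hE2 : E2T := fun q _ ρ h1 h2 => e2_23 hE q ρ h1 h2
  have hG : S_G := Pool.Agent.T9h75.LZ.g
  have hM1 : S_M1 := Pool.Agent.T9h51.LZ.m1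
  exact ⟨fun a ha α β hαβ h => top1 hE2 hG ha hαβ h, top2 hE2 hG,
    fun U hU hne => top3 hE2 hG hM1 hM2 hU hne, top4 hE2 hG hM1 hM2⟩

end Pool.Agent.T9h54.FF.Arc
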