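import Pool.Agent.T9h54.FF.Seq
import Pool.Agent.T9h54.LZ.Fin

/-!
# Project FF: chains of primes and the relation
-/

set_option autoImplicit false

namespace Pool.Agent.T9h54.FF

open Finset Filter Topology DirichletCharacter
open Pool.Agent.T9h54.LZ

/-- the modulus of a chain -/
def md (q : ℕ) : List ℕ → ℕ
  | [] => q
  | P :: l => md q l * P

/-- the lift along a chain -/
noncomputable def lf (q : ℕ) : (l : List ℕ) → DirichletCharacter ℂ q → DirichletCharacter ℂ (md q l)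
  | [], χ => χ
  | P :: l, χ => changeLevel (dvd_mul_right (md q l) P) (lf q l χ)

/-- a good chain: every character which vanishes at `ρ` comes from the level below -/
def Good (ρ : ℂ) (q : ℕ) : List ℕ → Prop
  | [] => True
  | P :: l => Good ρ q l ∧ P.Prime ∧ ¬ P ∣ md q l ∧
      ∀ [NeZero (md q l * P)] (χ : DirichletCharacter ℂ (md q l * P)), LFunction χ ρ = 0 →
        ∃ ψ : DirichletCharacter ℂ (md q l), χ = changeLevel (dvd_mul_right (md q l) P) ψ

theorem md_ne {ρ : ℂ} {q : ℕ} (hq : q ≠ 0) : ∀ l : List ℕ, Good ρ q l → md q l ≠ 0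
  | [], _ => hq
  | P :: l, h => mul_ne_zero (md_ne hq l h.1) h.2.1.ne_zero

theorem dvd_md (q : ℕ) : ∀ l : List ℕ, q ∣ md q l
  | [] => dvd_rfl
  | P :: l => (dvd_md q l).trans (dvd_mul_right _ _)

theorem lf_apply {ρ : ℂ} {q : ℕ} (hq : q ≠ 0) (χ : DirichletCharacter ℂ q) (j : ℕ) :
    ∀ l : List ℕ, Good ρ q l → j.Coprime (md q l) →
      lf q l χ (j : ZMod (md q l)) = χ (j : ZMod q)
  | [], _, _ => rfl
  | P :: l, h, hj => by
    have h1 : md q l ≠ 0 := md_ne hq l h.1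
    have : NeZero (md q l) := ⟨h1⟩
    have : NeZero P := ⟨h.2.1.ne_zero⟩
    have : NeZero (md q l * P) := ⟨mul_ne_zero h1 h.2.1.ne_zero⟩
    have hj' : j.Coprime (md q l * P) := hj
    have h2 := lift_apply (q := md q l) h.2.1 h.2.2.1 (lf q l χ) j
    have hPj : ¬ P ∣ j := by
      intro hd
      have h3 : j.Coprime P := hj'.coprime_dvd_right (dvd_mul_left P _)
      exact (Nat.Prime.coprime_iff_not_dvd h.2.1).1 h3.symm hd
    rw [if_neg hPj, lf_apply hq χ j l h.1 (hj'.coprime_dvd_right (dvd_mul_right _ P))] at h2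
    exact h2

theorem lf_inj {ρ : ℂ} {q : ℕ} (hq : q ≠ 0) : ∀ l : List ℕ, Good ρ q l → Function.Injective (lf q l)
  | [], _ => fun _ _ h => h
  | P :: l, h => by
    have h1 : md q l ≠ 0 := md_ne hq l h.1
    have : NeZero (md q l * P) := ⟨mul_ne_zero h1 h.2.1.ne_zero⟩
    intro a b hab
    exact lf_inj hq l h.1 (changeLevel_injective (dvd_mul_right (md q l) P) hab)

theorem LF_step {M P : ℕ} [NeZero M] [NeZero (M * P)] (hP : P.Prime) (hPM : ¬ P ∣ M)
    (ψ : DirichletCharacter ℂ M) {s : ℂ} (hs : s ≠ 1) :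
    LFunction (changeLevel (dvd_mul_right M P) ψ) s =
      LFunction ψ s * (1 - ψ (P : ZMod M) * (P : ℂ) ^ (-s)) := by
  rw [LFunction_changeLevel (dvd_mul_right M P) ψ (Or.inr hs)]
  congr 1
  rw [Finset.prod_eq_single P]
  · intro p hp hne
    have hp1 := Nat.prime_of_mem_primeFactors hp
    have hp2 := Nat.dvd_of_mem_primeFactors hp
    have h3 : p ∣ M := by
      rcases (Nat.Prime.dvd_mul hp1).1 hp2 with h | h
      · exact h
      · exact absurd ((Nat.prime_dvd_prime_iff_eq hp1 hP).1 h) hne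
    have h4 : ψ (p : ZMod M) = 0 := by
      apply MulChar.map_nonunit
      rw [ZMod.isUnit_iff_coprime]
      intro hc
      exact hp1.one_lt.ne' (Nat.Coprime.eq_one_of_dvd hc h3)
    rw [h4, zero_mul, sub_zero]
  · intro h
    exfalso
    apply h
    rw [Nat.mem_primeFactors]
    exact ⟨hP, dvd_mul_left P M, NeZero.ne _⟩

theorem vanish_lift {ρ : ℂ} (hρ0 : 0 < ρ.re) (hρ : ρ ≠ 1) {q : ℕ} (hq : q ≠ 0) :
    ∀ l : List ℕ, Good ρ q l → ∀ [NeZero (md q l)] (X : DirichletCharacter ℂ (md q l)),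
      LFunction X ρ = 0 → ∃ χ : DirichletCharacter ℂ q, X = lf q l χ
  | [], _, _, X, _ => ⟨X, rfl⟩
  | P :: l, h, _, X, hX => by
    have h1 : md q l ≠ 0 := md_ne hq l h.1
    have : NeZero (md q l) := ⟨h1⟩
    have : NeZero (md q l * P) := ⟨mul_ne_zero h1 h.2.1.ne_zero⟩
    obtain ⟨ψ, hψ⟩ := h.2.2.2 X hX
    have h2 : LFunction ψ ρ = 0 := by
      have h3 := Pool.Agent.T9h65.LZ.zero_iff (dvd_mul_right (md q l) P) ψ hρ0 hρ
      rw [← h3, ← hψ]
      exact hX
    obtain ⟨χ, hχ⟩ := vanish_lift hρ0 hρ hq l h.1 ψ h2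
    refine ⟨χ, ?_⟩
    rw [hψ, hχ]
    rfl

theorem quot (hEL : S_EL) {ρ : ℂ} {q : ℕ} [NeZero q] (χ : DirichletCharacter ℂ q) {s : ℂ}
    (hs : s ≠ 1) : ∀ l : List ℕ, Good ρ q l → ∀ [NeZero (md q l)],
    EE (lf q l χ) s / LFunction (lf q l χ) s =
      (l.map fun P : ℕ => hf (χ (P : ZMod q)) P s).prod * (EE χ s / LFunction χ s)
  | [], _, _ => by
    simp only [List.map_nil, List.prod_nil, one_mul]
    rfl
  | P :: l, h, _ => by
    have h1 : md q l ≠ 0 := md_ne (NeZero.ne q) l h.1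
    have : NeZero (md q l) := ⟨h1⟩
    have : NeZero (md q l * P) := ⟨mul_ne_zero h1 h.2.1.ne_zero⟩
    have ih := quot hEL χ hs l h.1
    have hPc : P.Coprime (md q l) := (Nat.Prime.coprime_iff_not_dvd h.2.1).2 h.2.2.1
    have hz : lf q l χ (P : ZMod (md q l)) = χ (P : ZMod q) :=
      lf_apply (NeZero.ne q) χ P l h.1 hPc
    have e1 := hEL (md q l) P h.2.1 h.2.2.1 (lf q l χ) s
    have e2 := LF_step h.2.1 h.2.2.1 (lf q l χ) hs
    have e3 : (lf q l χ)⁻¹ (P : ZMod (md q l)) = (χ (P : ZMod q))⁻¹ := by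
      rw [← hz]
      exact MulChar.inv_apply_eq_inv' _ _
    rw [e3] at e1
    rw [hz] at e2
    have e4 : lf q (P :: l) χ = changeLevel (dvd_mul_right (md q l) P) (lf q l χ) := rfl
    rw [List.map_cons, List.prod_cons, mul_assoc, ← ih]
    have e5 : EE (lf q (P :: l) χ) s / LFunction (lf q (P :: l) χ) s =
      EE (changeLevel (dvd_mul_right (md q l) P) (lf q l χ)) s /
        LFunction (changeLevel (dvd_mul_right (md q l) P) (lf q l χ)) s := rfl
    rw [e5, e1, e2]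
    unfold hf
    rw [div_mul_div_comm, mul_comm (LFunction (lf q l χ) s)]

theorem hf_den {z ρ : ℂ} (hz : ‖z‖ ≤ 1) {P : ℕ} (hP : P.Prime) (hρ : 0 < ρ.re) :
    1 - z * (P : ℂ) ^ (-ρ) ≠ 0 := by
  intro h
  have h1 : z * (P : ℂ) ^ (-ρ) = 1 := (sub_eq_zero.1 h).symm
  have h2 : ‖z * (P : ℂ) ^ (-ρ)‖ < 1 := by
    rw [norm_mul, Complex.norm_natCast_cpow_of_pos hP.pos, Complex.neg_re]
    calc ‖z‖ * (P : ℝ) ^ (-ρ.re) ≤ 1 * (P : ℝ) ^ (-ρ.re) :=
          mul_le_mul_of_nonneg_right hz (by positivity)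
      _ < 1 := by
          rw [one_mul]
          exact Real.rpow_lt_one_of_one_lt_of_neg (by exact_mod_cast hP.one_lt) (by linarith)
  rw [h1, norm_one] at h2
  exact lt_irrefl _ h2

theorem hf_cont {z ρ : ℂ} (hz : ‖z‖ ≤ 1) {P : ℕ} (hP : P.Prime) (hρ : 0 < ρ.re) :
    ContinuousAt (fun s => hf z P s) ρ := by
  have hP0 : (P : ℂ) ≠ 0 := by exact_mod_cast hP.ne_zero
  have h1 : ContinuousAt (fun s : ℂ => (P : ℂ) ^ (-s)) ρ :=
    (ContinuousAt.const_cpow continuousAt_id.neg (Or.inl hP0))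
  unfold hf
  refine ContinuousAt.div ?_ ?_ (hf_den hz hP hρ)
  · exact (continuousAt_const.add (continuousAt_const.mul h1)).neg
  · exact continuousAt_const.sub (continuousAt_const.mul h1)

theorem good_prime {ρ : ℂ} {q : ℕ} : ∀ l : List ℕ, Good ρ q l → ∀ P ∈ l, P.Prime
  | [], _, P, hP => absurd hP List.not_mem_nil
  | P' :: l, h, P, hP => by
    rcases List.mem_cons.1 hP with h1 | h1
    · rw [h1]; exact h.2.1
    · exact good_prime l h.1 P h1

/-- **The relation.** -/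
theorem rel (hEL : S_EL) {a : ℝ} (ha : 0 ≤ a) (ha1 : a < 1) {ρ : ℂ} (haρ : a < ρ.re) (hρ : ρ ≠ 1)
    {q : ℕ} [NeZero q] {σ : ℕ → ℂ} {H : ℕ → ℂ} {c : DirichletCharacter ℂ q → ℂ}
    (hσ : Tendsto σ atTop (𝓝[≠] ρ)) (hH : Tendsto H atTop (𝓝 0))
    (hc : ∀ χ, Tendsto (fun k => EE χ (σ k) / LFunction χ (σ k) * H k) atTop (𝓝 (c χ)))
    (l : List ℕ) (hl : Good ρ q l) (j : ℕ) (hj : j.Coprime (md q l))
    (hb : ∃ C : ℝ, ∀ R : ℕ, 1 ≤ R → ‖F R ((j : ℝ) / (md q l : ℝ))‖ ≤ C * (R : ℝ) ^ a) :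
    ∑ χ : DirichletCharacter ℂ q, χ (j : ZMod q) * c χ *
      (l.map fun P : ℕ => hf (χ (P : ZMod q)) P ρ).prod = 0 := by
  classical
  have hρ0 : 0 < ρ.re := lt_of_le_of_lt ha haρ
  have hM : md q l ≠ 0 := md_ne (NeZero.ne q) l hl
  have : NeZero (md q l) := ⟨hM⟩
  have hσ0 : Tendsto σ atTop (𝓝 ρ) := tendsto_nhds_of_tendsto_nhdsWithin hσ
  have hev1 : ∀ᶠ k in atTop, σ k ≠ 1 := hσ0.eventually_ne hρ
  have hevre : ∀ᶠ k in atTop, a < (σ k).re :=
    hσ0.eventually ((isOpen_lt continuous_const Complex.continuous_re).mem_nhds haρ)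
  have hevL : ∀ᶠ k in atTop, ∀ X : DirichletCharacter ℂ (md q l), LFunction X (σ k) ≠ 0 := by
    rw [eventually_all]
    intro X
    filter_upwards [hσ.eventually (ev_ne X ρ), hev1] with k hk hk1 h
    apply hk
    rw [Lt_eq X hk1, h, mul_zero]
  obtain ⟨C, hC⟩ := hb
  set b : (ZMod (md q l))ˣ := ZMod.unitOfCoprime j hj with hbd
  have hbj : (b : ZMod (md q l)) = (j : ZMod (md q l)) := ZMod.coe_unitOfCoprime j hj
  obtain ⟨A, hA, hAs⟩ := ident (Q := md q l) ha ha1 b (C := C) (by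
    intro R hR
    have h1 := hC R hR
    rw [F_eq] at h1
    rw [hbj]
    exact h1)
  have hAc : Tendsto (fun k => A (σ k)) atTop (𝓝 (A ρ)) := by
    have hUo : IsOpen {s : ℂ | a < s.re} := isOpen_lt continuous_const Complex.continuous_re
    exact ((hA.differentiableAt (hUo.mem_nhds haρ)).continuousAt.tendsto).comp hσ0
  have e1 : Tendsto (fun k => ((md q l).totient : ℂ) * A (σ k) * H k) atTop (𝓝 0) := by
    have := (hAc.const_mul ((md q l).totient : ℂ)).mul hH
    simpa using this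
  have e2 : ∀ᶠ k in atTop, ((md q l).totient : ℂ) * A (σ k) * H k =
      ∑ X : DirichletCharacter ℂ (md q l), X (j : ZMod (md q l)) *
        (EE X (σ k) / LFunction X (σ k)) * H k := by
    filter_upwards [hev1, hevre, hevL] with k h1 h2 h3
    rw [hAs (σ k) h2 h1 h3, Finset.sum_mul, hbj]
  -- the limit vector at the level of the chain
  obtain ⟨G, hG⟩ : ∃ G : DirichletCharacter ℂ (md q l) → ℂ, ∀ X : DirichletCharacter ℂ (md q l),
      Tendsto (fun k => X (j : ZMod (md q l)) * (EE X (σ k) / LFunction X (σ k)) * H k) atTop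
        (𝓝 (G X)) ∧ ((∀ χ, X ≠ lf q l χ) → G X = 0) ∧ ∀ χ, X = lf q l χ → G X =
        χ (j : ZMod q) * c χ * (l.map fun P : ℕ => hf (χ (P : ZMod q)) P ρ).prod := by
    have hX : ∀ X : DirichletCharacter ℂ (md q l), ∃ g : ℂ,
        Tendsto (fun k => X (j : ZMod (md q l)) * (EE X (σ k) / LFunction X (σ k)) * H k) atTop
        (𝓝 g) ∧ ((∀ χ, X ≠ lf q l χ) → g = 0) ∧ ∀ χ, X = lf q l χ → g =
        χ (j : ZMod q) * c χ * (l.map fun P : ℕ => hf (χ (P : ZMod q)) P ρ).prod := by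
      intro X
      by_cases hXl : ∃ χ, X = lf q l χ
      · obtain ⟨χ, rfl⟩ := hXl
        refine ⟨χ (j : ZMod q) * c χ * (l.map fun P : ℕ => hf (χ (P : ZMod q)) P ρ).prod, ?_, ?_, ?_⟩
        · have t1 : Tendsto (fun k => (l.map fun P : ℕ => hf (χ (P : ZMod q)) P (σ k)).prod) atTop
              (𝓝 (l.map fun P : ℕ => hf (χ (P : ZMod q)) P ρ).prod) := by
            refine tendsto_list_prod (f := fun (P : ℕ) (k : ℕ) => hf (χ (P : ZMod q)) P (σ k)) l fun P hP => ?_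
            exact (hf_cont (DirichletCharacter.norm_le_one χ _) (good_prime l hl P hP) hρ0).tendsto.comp
              hσ0
          have t2 := ((hc χ).const_mul (χ (j : ZMod q))).mul t1
          refine t2.congr' ?_
          filter_upwards [hev1] with k hk
          rw [quot hEL χ hk l hl, lf_apply (NeZero.ne q) χ j l hl hj]
          ring
        · intro h
          exact absurd rfl (h χ)
        · intro χ' h
          rw [lf_inj (NeZero.ne q) l hl h]
      · have hXl' : ∀ χ, X ≠ lf q l χ := fun χ h => hXl ⟨χ, h⟩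
        have h1 : LFunction X ρ ≠ 0 := fun h0 => hXl (vanish_lift hρ0 hρ (NeZero.ne q) l hl X h0)
        refine ⟨0, ?_, fun _ => rfl, fun χ h => absurd h (hXl' χ)⟩
        have hLc : Tendsto (fun k => LFunction X (σ k)) atTop (𝓝 (LFunction X ρ)) :=
          (differentiableAt_LFunction X ρ (Or.inl hρ)).continuousAt.tendsto.comp hσ0
        have hEc : Tendsto (fun k => EE X (σ k)) atTop (𝓝 (EE X ρ)) :=
          ((EE_diff X).continuous.tendsto ρ).comp hσ0
        have := ((hEc.div hLc h1).const_mul (X (j : ZMod (md q l)))).mul hH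
        simpa using this
    choose G hG using hX
    exact ⟨G, hG⟩
  have e3 : Tendsto (fun k => ∑ X : DirichletCharacter ℂ (md q l), X (j : ZMod (md q l)) *
        (EE X (σ k) / LFunction X (σ k)) * H k) atTop (𝓝 (∑ X, G X)) :=
    tendsto_finset_sum _ fun X _ => (hG X).1
  have e4 : ∑ X, G X = 0 := tendsto_nhds_unique e3 (e1.congr' e2)
  rw [← e4]
  have e5 : ∑ X ∈ univ.image (lf q l), G X = ∑ X, G X := by
    refine Finset.sum_subset (Finset.subset_univ _) fun X _ hX => (hG X).2.1 fun χ h => ?_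
    exact hX (mem_image.2 ⟨χ, mem_univ _, h.symm⟩)
  rw [← e5, Finset.sum_image fun x _ y _ h => lf_inj (NeZero.ne q) l hl h]
  refine Finset.sum_congr rfl fun χ _ => ?_
  exact ((hG (lf q l χ)).2.2 χ rfl).symm

end Pool.Agent.T9h54.FF
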