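import Pool.Agent.T9h54.FF.Spec2

/-!
# Project FF: assembly of the density statement
-/

set_option autoImplicit false

namespace Pool.Agent.T9h54.FF

open Finset Filter Topology DirichletCharacter
open Pool.Agent.T9h54.LZ

/-- the polar part of the chain `l` at the class `u` -/
noncomputable def VV {q : ℕ} [NeZero q] (c : DirichletCharacter ℂ q → ℂ) (ρ : ℂ) (l : List ℕ)
    (u : (ZMod q)ˣ) : ℂ :=
  ∑ χ : DirichletCharacter ℂ q, χ (u : ZMod q) * c χ *
    (l.map fun P : ℕ => hf (χ (P : ZMod q)) P ρ).prod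

/-- a chain with a polar part at every fraction -/
theorem exists_chain (hGP : S_GP) (hALG : S_ALG) {ρ : ℂ} (h1 : 5 / 6 < ρ.re) (h2 : ρ.re < 1) {q : ℕ}
    [NeZero q] (c : DirichletCharacter ℂ q → ℂ) (hc : ∃ χ, c χ ≠ 0) :
    ∃ l : List ℕ, Good ρ q l ∧ ∀ u : (ZMod q)ˣ, VV c ρ l u ≠ 0 := by
  classical
  by_contra hcon
  push Not at hcon
  obtain ⟨χ₁, hc1⟩ := hc
  apply hc1
  have h3 := ind hGP hALG h1 h2 c 0 (by
    intro l hl _
    obtain ⟨u, hu⟩ := hcon l hl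
    have hM : md q l ≠ 0 := md_ne (NeZero.ne q) l hl
    have : NeZero (md q l) := ⟨hM⟩
    obtain ⟨u', hu'⟩ := ZMod.unitsMap_surjective (dvd_md q l) u
    refine ⟨(u' : ZMod (md q l)).val, ZMod.val_coe_unit_coprime u', ?_⟩
    have h4 : (((u' : ZMod (md q l)).val : ℕ) : ZMod q) = (u : ZMod q) := by
      rw [← hu', ZMod.unitsMap_val, ZMod.natCast_val]
    rw [h4]
    exact hu)
    ((univ : Finset (ZMod q)ˣ).toList) [] trivial (fun _ => Nat.zero_le _)
  obtain ⟨u, hu⟩ := h3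
  refine lin_indep c (fun v => ?_) χ₁
  have h2 := hu (u⁻¹ * v) (mem_gen _ _ (mem_toList.2 (mem_univ _)))
  simp only [List.map_nil, List.prod_nil, mul_one, mul_inv_cancel_left] at h2
  exact h2

theorem VV_append {q : ℕ} [NeZero q] (c : DirichletCharacter ℂ q → ℂ) {ρ : ℂ} {l : List ℕ}
    {v B ε : ℝ} (hv : ∀ u : (ZMod q)ˣ, v ≤ ‖VV c ρ l u‖)
    (hB : ∑ χ : DirichletCharacter ℂ q, ‖c χ * (l.map fun P : ℕ => hf (χ (P : ZMod q)) P ρ).prod‖ ≤ B)
    (hε : 0 ≤ ε) (hεB : B * ε < v) {ps : List ℕ} (hps : ∀ P ∈ ps, P.Coprime q) {A : ℂ} (hA : A ≠ 0)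
    (h : ∀ z : ℕ → ℂ, (∀ P ∈ ps, ‖z P‖ = 1) →
      ‖(ps.map fun P : ℕ => hf (z P) P ρ).prod - A‖ ≤ ε * ‖A‖) (u : (ZMod q)ˣ) :
    VV c ρ (ps ++ l) u ≠ 0 := by
  intro h0
  have hA' : 0 < ‖A‖ := norm_pos_iff.2 hA
  have e1 : VV c ρ (ps ++ l) u - A * VV c ρ l u = ∑ χ : DirichletCharacter ℂ q, χ (u : ZMod q) *
      (c χ * (l.map fun P : ℕ => hf (χ (P : ZMod q)) P ρ).prod) *
        ((ps.map fun P : ℕ => hf (χ (P : ZMod q)) P ρ).prod - A) := by
    unfold VV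
    rw [Finset.mul_sum, ← Finset.sum_sub_distrib]
    refine Finset.sum_congr rfl fun χ _ => ?_
    rw [List.map_append, List.prod_append]
    ring
  have e2 : ‖VV c ρ (ps ++ l) u - A * VV c ρ l u‖ ≤ B * (ε * ‖A‖) := by
    rw [e1]
    refine (norm_sum_le _ _).trans ?_
    refine le_trans (Finset.sum_le_sum fun χ _ => ?_)
      (le_trans (le_of_eq (Finset.sum_mul _ _ (ε * ‖A‖)).symm)
        (mul_le_mul_of_nonneg_right hB (by positivity)))
    rw [norm_mul, norm_mul]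
    have h3 : ‖(ps.map fun P : ℕ => hf (χ (P : ZMod q)) P ρ).prod - A‖ ≤ ε * ‖A‖ := by
      refine h (fun P : ℕ => χ (P : ZMod q)) fun P hP => ?_
      have h4 := DirichletCharacter.unit_norm_eq_one χ (ZMod.unitOfCoprime P (hps P hP))
      rwa [ZMod.coe_unitOfCoprime] at h4
    have h5 : ‖χ (u : ZMod q)‖ ≤ 1 := DirichletCharacter.norm_le_one _ _
    refine mul_le_mul ?_ h3 (norm_nonneg _) (norm_nonneg _)
    calc _ ≤ 1 * ‖c χ * (l.map fun P : ℕ => hf (χ (P : ZMod q)) P ρ).prod‖ :=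
          mul_le_mul_of_nonneg_right h5 (norm_nonneg _)
      _ = _ := one_mul _
  rw [h0, zero_sub, norm_neg, norm_mul] at e2
  have e3 := hv u
  have e4 : ‖A‖ * v ≤ B * (ε * ‖A‖) := (mul_le_mul_of_nonneg_left e3 hA'.le).trans e2
  have e5 : B * (ε * ‖A‖) = ‖A‖ * (B * ε) := by ring
  rw [e5] at e4
  have e6 := le_of_mul_le_mul_left e4 hA'
  linarith

/-- at every reduced fraction with denominator `Q` the growth exponent is at least `Re ρ` -/
def Bad (β : ℝ) (Q : ℕ) : Prop := ∀ j : ℕ, j.Coprime Q → ∀ b : ℝ, b < β →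
  ¬ ∃ C : ℝ, ∀ R : ℕ, 1 ≤ R → ‖F R ((j : ℝ) / (Q : ℝ))‖ ≤ C * (R : ℝ) ^ b

theorem bad_of (hEL : S_EL) {ρ : ℂ} (hρ0 : 0 < ρ.re) (hρ1 : ρ.re < 1) (hρ : ρ ≠ 1)
    {q : ℕ} [NeZero q] {σ : ℕ → ℂ} {H : ℕ → ℂ} {c : DirichletCharacter ℂ q → ℂ}
    (hσ : Tendsto σ atTop (𝓝[≠] ρ)) (hH : Tendsto H atTop (𝓝 0))
    (hc : ∀ χ, Tendsto (fun k => EE χ (σ k) / LFunction χ (σ k) * H k) atTop (𝓝 (c χ)))
    {l : List ℕ} (hl : Good ρ q l) (hV : ∀ u : (ZMod q)ˣ, VV c ρ l u ≠ 0) : Bad ρ.re (md q l) := by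
  intro j hj b hb
  rintro ⟨C, hC⟩
  have hjq : j.Coprime q := hj.coprime_dvd_right (dvd_md q l)
  apply hV (ZMod.unitOfCoprime j hjq)
  have h1 := rel hEL (a := max b 0) (le_max_right _ _) (max_lt (by linarith) one_pos)
    (max_lt hb hρ0) hρ hσ hH hc l hl j hj ⟨max C 0, fun R hR => ?_⟩
  · unfold VV
    rw [ZMod.coe_unitOfCoprime]
    exact h1
  · have hR1 : (1 : ℝ) ≤ R := by exact_mod_cast hR
    refine (hC R hR).trans ?_
    exact mul_le_mul (le_max_left _ _) (Real.rpow_le_rpow_of_exponent_le hR1 (le_max_left _ _))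
      (Real.rpow_nonneg (by linarith) _) (le_max_right _ _)

open Classical in
/-- the weights -/
noncomputable def ww' (ρ : ℂ) (M : ℕ) (δ : ℝ) (d : ℕ) : ℝ :=
  if d = 1 then 0 else ((if ∃ e, e ∣ M ∧ RR ρ (d * e) then 1 else 0) +
    ((if ∃ P : ℕ, P.Prime ∧ d = P * P then 1 else 0) +
      (if d.Prime then δ⁻¹ * (d : ℝ) ^ (ρ.re - 1) else 0)))

theorem ww_nonneg {ρ : ℂ} {M : ℕ} {δ : ℝ} (hδ : 0 < δ) (d : ℕ) : 0 ≤ ww' ρ M δ d := by
  unfold ww'
  split_ifs <;> positivity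

theorem summable_sq (f : ℕ → Prop) [DecidablePred f] (hf : ∀ d, f d → ∃ P : ℕ, P.Prime ∧ d = P * P) :
    Summable fun d : ℕ => if f d then 1 / (d : ℝ) else 0 := by
  have h1 : Summable fun n : ℕ => 1 / ((n : ℝ) ^ 2) := Real.summable_one_div_nat_pow.2 (by norm_num)
  have hinj : Function.Injective fun n : ℕ => n * n := by
    intro a b h
    exact Nat.mul_self_inj.1 h
  have h2 : Summable (Function.extend (fun n : ℕ => n * n) (fun n : ℕ => 1 / ((n : ℝ) ^ 2)) 0) :=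
    (summable_extend_zero hinj).2 h1
  refine Summable.of_nonneg_of_le (fun d => by split_ifs <;> positivity) (fun d => ?_) h2
  split_ifs with h
  · obtain ⟨P, -, rfl⟩ := hf d h
    have h3 := hinj.extend_apply (fun n : ℕ => 1 / ((n : ℝ) ^ 2)) 0 P
    rw [h3]
    push_cast
    rw [pow_two]
  · by_cases h4 : ∃ n, n * n = d
    · obtain ⟨n, rfl⟩ := h4
      have h3 := hinj.extend_apply (fun n : ℕ => 1 / ((n : ℝ) ^ 2)) 0 n
      rw [h3]
      positivity
    · rw [Function.extend_apply' _ _ _ (by simpa using h4)]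
      simp

theorem ww_summable (hDC : S_DC) {ρ : ℂ} (h1 : 5 / 6 < ρ.re) (h2 : ρ.re < 1) {M : ℕ} (hM : M ≠ 0)
    {δ : ℝ} (hδ : 0 < δ) : Summable fun d : ℕ => ww' ρ M δ d / d := by
  classical
  have s1 := hDC ρ h1 h2 M hM
  have s2 := summable_sq (fun d => ∃ P : ℕ, P.Prime ∧ d = P * P) (fun d h => h)
  have s3 : Summable fun d : ℕ => δ⁻¹ * (1 / (d : ℝ) ^ (2 - ρ.re)) :=
    (Real.summable_one_div_nat_rpow.2 (by linarith)).mul_left _
  refine Summable.of_nonneg_of_le (fun d => div_nonneg (ww_nonneg hδ d) (Nat.cast_nonneg d))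
    (fun d => ?_) (s1.add (s2.add s3))
  rcases Nat.eq_zero_or_pos d with rfl | hd
  · simp only [Nat.cast_zero, div_zero]
    have : (0 : ℝ) ≤ δ⁻¹ * (0 ^ (2 - ρ.re))⁻¹ := by positivity
    split_ifs <;> simp <;> positivity
  have hd0 : (0 : ℝ) < d := by exact_mod_cast hd
  have e1 : ∀ p : Prop, ∀ [Decidable p], (if p then (1 : ℝ) else 0) / d = if p then 1 / (d : ℝ) else 0 := by
    intro p _
    split_ifs <;> simp
  have e2 : (if d.Prime then δ⁻¹ * (d : ℝ) ^ (ρ.re - 1) else 0) / d ≤ δ⁻¹ * (1 / (d : ℝ) ^ (2 - ρ.re)) := by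
    have e3 : δ⁻¹ * (d : ℝ) ^ (ρ.re - 1) / d = δ⁻¹ * (1 / (d : ℝ) ^ (2 - ρ.re)) := by
      have e4 : (d : ℝ) ^ (ρ.re - 1) / d = 1 / (d : ℝ) ^ (2 - ρ.re) := by
        rw [one_div, ← Real.rpow_neg hd0.le, div_eq_mul_inv, ← Real.rpow_neg_one (d : ℝ),
          ← Real.rpow_add hd0]
        congr 1
        ring
      rw [mul_div_assoc, e4]
    split_ifs
    · exact le_of_eq e3
    · rw [zero_div]; positivity
  unfold ww'
  by_cases h : d = 1
  · rw [if_pos h, zero_div]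
    refine add_nonneg ?_ (add_nonneg ?_ (by positivity))
    · split_ifs <;> positivity
    · split_ifs <;> positivity
  · rw [if_neg h, add_div, add_div, e1, e1]
    exact add_le_add le_rfl (add_le_add le_rfl e2)

/-- **A positive proportion of the denominators.** -/
theorem dens (hGP : S_GP) (hALG : S_ALG) (hEL : S_EL) (hDC : S_DC) (hSV : S_SV) (hEX : S_EX)
    (hNV : S_NV) {q : ℕ} [NeZero q] {χ₀ : DirichletCharacter ℂ q} {ρ : ℂ} (hρ : 5 / 6 < ρ.re)
    (hρ1 : ρ.re < 1) (h0 : LFunction χ₀ ρ = 0) (hE : EE χ₀ ρ ≠ 0) :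
    ∃ c : ℝ, 0 < c ∧ ∃ x₀ : ℕ, ∀ x : ℕ, x₀ ≤ x → ∃ A : Finset ℕ, c * x ≤ A.card ∧
      ∀ Q ∈ A, 1 ≤ Q ∧ Q ≤ x ∧ Bad ρ.re Q := by
  classical
  have hρne : ρ ≠ 1 := by
    rintro rfl
    simp at hρ1
  have hρ0 : 0 < ρ.re := by linarith
  obtain ⟨σ, H, c, hσ, hH, hcne, hc⟩ := seq hρne χ₀ h0 hE
  obtain ⟨l, hl, hV⟩ := exists_chain hGP hALG hρ hρ1 c hcne
  have hM : md q l ≠ 0 := md_ne (NeZero.ne q) l hl
  obtain ⟨u₀, -, hu₀⟩ := Finset.exists_min_image (univ : Finset (ZMod q)ˣ) (fun u => ‖VV c ρ l u‖)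
    ⟨1, mem_univ _⟩
  set v : ℝ := ‖VV c ρ l u₀‖ with hv
  have hvpos : 0 < v := norm_pos_iff.2 (hV u₀)
  have hvle : ∀ u : (ZMod q)ˣ, v ≤ ‖VV c ρ l u‖ := fun u => hu₀ u (mem_univ u)
  set B : ℝ := ∑ χ : DirichletCharacter ℂ q, ‖c χ * (l.map fun P : ℕ => hf (χ (P : ZMod q)) P ρ).prod‖
    with hB
  have hB0 : 0 ≤ B := Finset.sum_nonneg fun _ _ => norm_nonneg _
  set ε : ℝ := v / (2 * (B + 1)) with hε
  have hεpos : 0 < ε := by positivity
  have hεB : B * ε < v := by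
    have e1 : (B + 1) * ε = v / 2 := by
      rw [hε]
      field_simp
    nlinarith
  obtain ⟨δ, hδ, hδ2⟩ := hNV ρ ε (by linarith) hρ1 hεpos
  obtain ⟨c₁, hc₁, x₀, hx₀⟩ := hSV (ww' ρ (md q l) δ) (ww_nonneg hδ) (by unfold ww'; simp)
    (ww_summable hDC hρ hρ1 hM hδ) (md q l)
  have hMpos : 0 < md q l := Nat.pos_of_ne_zero hM
  have hMR : (0 : ℝ) < (md q l : ℝ) := by exact_mod_cast hMpos
  refine ⟨c₁ / (2 * md q l), by positivity, md q l * (x₀ + 1), fun x hx => ?_⟩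
  obtain ⟨A, hA, hAm⟩ := hx₀ (x / md q l) (by
    rw [Nat.le_div_iff_mul_le hMpos]
    nlinarith)
  refine ⟨A.image fun m => md q l * m, ?_, ?_⟩
  · rw [Finset.card_image_of_injective _ fun a b h => Nat.eq_of_mul_eq_mul_left hMpos h]
    refine le_trans ?_ hA
    have e1 : (x : ℝ) / md q l < (x / md q l : ℕ) + 1 := by
      rw [div_lt_iff₀ hMR]
      have := Nat.lt_div_mul_add (a := x) hMpos
      have e3 : (x : ℝ) < ((x / md q l : ℕ) : ℝ) * md q l + md q l := by exact_mod_cast this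
      linarith
    have e2 : (1 : ℝ) ≤ (x / md q l : ℕ) := by
      have : 1 ≤ x / md q l := by
        rw [Nat.le_div_iff_mul_le hMpos]
        nlinarith
      exact_mod_cast this
    have e3 : c₁ / (2 * md q l) * x = c₁ * ((x : ℝ) / md q l / 2) := by
      field_simp
    rw [e3]
    refine mul_le_mul_of_nonneg_left ?_ hc₁.le
    linarith
  · intro Q hQ
    obtain ⟨m, hm, rfl⟩ := mem_image.1 hQ
    obtain ⟨hm1, hmx, hmp, hmw⟩ := hAm m hm
    have hm0 : m ≠ 0 := by omega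
    refine ⟨Nat.mul_pos hMpos hm1, ?_, ?_⟩
    · calc md q l * m ≤ md q l * (x / md q l) := Nat.mul_le_mul_left _ hmx
        _ ≤ x := Nat.mul_div_le x _
    have hwle : ∀ d, d ∣ m → ww' ρ (md q l) δ d < 1 := by
      intro d hd
      refine lt_of_le_of_lt ?_ hmw
      exact Finset.single_le_sum (f := ww' ρ (md q l) δ) (fun i _ => ww_nonneg hδ i)
        (Nat.mem_divisors.2 ⟨hd, hm0⟩)
    have hsq : Squarefree m := by
      rw [Nat.squarefree_iff_prime_squarefree]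
      intro p hp hd
      have h1 := hwle (p * p) hd
      have hp1 : p * p ≠ 1 := by
        have := hp.two_le
        nlinarith
      unfold ww' at h1
      rw [if_neg hp1, if_pos (⟨p, hp, rfl⟩ : ∃ P : ℕ, P.Prime ∧ p * p = P * P)] at h1
      have h2 : (0 : ℝ) ≤ if ∃ e, e ∣ md q l ∧ RR ρ (p * p * e) then 1 else 0 := by
        split_ifs <;> positivity
      have h3 : (0 : ℝ) ≤ if (p * p).Prime then δ⁻¹ * ((p * p : ℕ) : ℝ) ^ (ρ.re - 1) else 0 := by
        split_ifs <;> positivity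
      linarith
    have hnd : m.primeFactorsList.Nodup := (Nat.squarefree_iff_nodup_primeFactorsList hm0).1 hsq
    have hpr : m.primeFactorsList.prod = m := Nat.prod_primeFactorsList hm0
    have hps : ∀ P ∈ m.primeFactorsList, P.Prime ∧ ¬ P ∣ md q l := by
      intro P hP
      have hP1 := Nat.prime_of_mem_primeFactorsList hP
      have hP2 := Nat.dvd_of_mem_primeFactorsList hP
      refine ⟨hP1, fun h => ?_⟩
      have h1 := Nat.le_of_dvd hMpos h
      have h2 := hmp P hP1 hP2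
      omega
    have hRR : ∀ d e : ℕ, 1 < d → d ∣ m.primeFactorsList.prod → e ∣ md q l → ¬ RR ρ (d * e) := by
      intro d e hd1 hd he hr
      rw [hpr] at hd
      have h1 := hwle d hd
      unfold ww' at h1
      rw [if_neg hd1.ne', if_pos (⟨e, he, hr⟩ : ∃ e, e ∣ md q l ∧ RR ρ (d * e))] at h1
      have h2 : (0 : ℝ) ≤ if ∃ P : ℕ, P.Prime ∧ d = P * P then 1 else 0 := by
        split_ifs <;> positivity
      have h3 : (0 : ℝ) ≤ if d.Prime then δ⁻¹ * (d : ℝ) ^ (ρ.re - 1) else 0 := by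
        split_ifs <;> positivity
      linarith
    have hsum : (m.primeFactorsList.map fun P : ℕ => (P : ℝ) ^ (ρ.re - 1)).sum ≤ δ := by
      rw [← List.sum_toFinset _ hnd]
      have h1 : ∑ P ∈ m.primeFactorsList.toFinset, δ⁻¹ * (P : ℝ) ^ (ρ.re - 1) ≤
          ∑ d ∈ m.divisors, ww' ρ (md q l) δ d := by
        refine le_trans (Finset.sum_le_sum fun P hP => ?_)
          (Finset.sum_le_sum_of_subset_of_nonneg (f := ww' ρ (md q l) δ) ?_ fun d _ _ => ww_nonneg hδ d)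
        · rw [List.mem_toFinset] at hP
          have hP1 := Nat.prime_of_mem_primeFactorsList hP
          unfold ww'
          rw [if_neg hP1.one_lt.ne', if_pos hP1]
          have h2 : (0 : ℝ) ≤ if ∃ e, e ∣ md q l ∧ RR ρ (P * e) then 1 else 0 := by
            split_ifs <;> positivity
          have h3 : (0 : ℝ) ≤ if ∃ P' : ℕ, P'.Prime ∧ P = P' * P' then 1 else 0 := by
            split_ifs <;> positivity
          linarith
        · intro P hP
          rw [List.mem_toFinset] at hP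
          exact Nat.mem_divisors.2 ⟨Nat.dvd_of_mem_primeFactorsList hP, hm0⟩
      rw [← Finset.mul_sum] at h1
      have h2 := lt_of_le_of_lt h1 hmw
      rw [inv_mul_lt_iff₀ hδ, mul_one] at h2
      exact h2.le
    obtain ⟨hg, hmd⟩ := hEX ρ q l hρ0 hρne hl m.primeFactorsList hnd hps hRR
    rw [hpr] at hmd
    obtain ⟨A', hA', hA2⟩ := hδ2 m.primeFactorsList (fun P hP => (hps P hP).1) hsum
    rw [← hmd]
    refine bad_of hEL hρ0 hρ1 hρne hσ hH hc hg fun u => ?_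
    refine VV_append c hvle le_rfl hεpos.le hεB (fun P hP => ?_) hA' hA2 u
    rw [Nat.Prime.coprime_iff_not_dvd (hps P hP).1]
    intro h
    exact (hps P hP).2 (h.trans (dvd_md q l))

end Pool.Agent.T9h54.FF
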