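import Pool.Agent.T9h54.FF.Dens
import Pool.Agent.T9h54.FF.Spec3

/-!
# Project FF: the density statement at a point
-/

set_option autoImplicit false

namespace Pool.Agent.T9h54.FF

open Finset Filter Topology DirichletCharacter
open Pool.Agent.T9h54.LZ

theorem indA {ρ : ℂ} (hGP : GPat ρ) (hALG : S_ALG) (h1 : 1 / 2 < ρ.re) (h2 : ρ.re < 1) {q : ℕ}
    [NeZero q] (c : DirichletCharacter ℂ q → ℂ) (Q0 : ℕ)
    (hrel : ∀ l : List ℕ, Good ρ q l → Q0 ≤ md q l → ∃ j : ℕ, j.Coprime (md q l) ∧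
      ∑ χ : DirichletCharacter ℂ q, χ (j : ZMod q) * c χ *
        (l.map fun P : ℕ => hf (χ (P : ZMod q)) P ρ).prod = 0) :
    ∀ bs : List (ZMod q)ˣ, ∀ l : List ℕ, Good ρ q l → (bs = [] → Q0 ≤ md q l) →
      ∃ u : (ZMod q)ˣ, ∀ n ∈ gen bs, ∑ χ : DirichletCharacter ℂ q,
        χ ((u * n : (ZMod q)ˣ) : ZMod q) * c χ *
          (l.map fun P : ℕ => hf (χ (P : ZMod q)) P ρ).prod = 0 := by
  classical
  intro bs
  induction bs with
  | nil =>
    intro l hl hQ
    obtain ⟨j, hj, hj2⟩ := hrel l hl (hQ rfl)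
    have hjq : j.Coprime q := hj.coprime_dvd_right (dvd_md q l)
    refine ⟨ZMod.unitOfCoprime j hjq, fun n hn => ?_⟩
    have hn1 : n = 1 := hn
    rw [hn1, mul_one, ZMod.coe_unitOfCoprime]
    exact hj2
  | cons b bs ih =>
    intro l hl _
    have hM : md q l ≠ 0 := md_ne (NeZero.ne q) l hl
    have : NeZero (md q l) := ⟨hM⟩
    set T : (ZMod q)ˣ → ℕ → Prop := fun u P => ∀ n ∈ gen bs, ∑ χ : DirichletCharacter ℂ q,
        χ ((u * n : (ZMod q)ˣ) : ZMod q) * c χ *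
          ((P :: l).map fun P : ℕ => hf (χ (P : ZMod q)) P ρ).prod = 0 with hT
    set Ps : Set ℕ := {P | P.Prime ∧ (P : ZMod q) = (b : ZMod q) ∧ ∃ u, T u P} with hPs
    have hinf : Ps.Infinite := by
      refine Set.infinite_of_not_bddAbove ?_
      rintro ⟨K, hK⟩
      obtain ⟨P, hP, hKP, hPM, hPb, hPg⟩ := hGP q (md q l) (b : ZMod q).val
        (ZMod.val_coe_unit_coprime b) (max K Q0)
      have hg : Good ρ q (P :: l) := ⟨hl, hP, hPM, hPg⟩
      have hQ : Q0 ≤ md q (P :: l) := by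
        have e1 : md q (P :: l) = md q l * P := rfl
        rw [e1]
        have e2 : P ≤ md q l * P := Nat.le_mul_of_pos_left P (Nat.pos_of_ne_zero hM)
        have e3 := le_max_right K Q0
        omega
      obtain ⟨u, hu⟩ := ih (P :: l) hg fun _ => hQ
      have hPb' : (P : ZMod q) = (b : ZMod q) := by
        have e1 := (ZMod.natCast_eq_natCast_iff P (b : ZMod q).val q).2 hPb
        rw [e1, ZMod.natCast_zmod_val]
      have h3 : P ∈ Ps := ⟨hP, hPb', u, hu⟩
      have h4 := hK h3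
      have h5 := le_max_left K Q0
      omega
    obtain ⟨u, hu⟩ : ∃ u : (ZMod q)ˣ, {P : ℕ | P.Prime ∧ (P : ZMod q) = (b : ZMod q) ∧ T u P}.Infinite := by
      by_contra hc
      push Not at hc
      apply hinf
      have hsub : Ps ⊆ ⋃ u : (ZMod q)ˣ, {P : ℕ | P.Prime ∧ (P : ZMod q) = (b : ZMod q) ∧ T u P} := by
        rintro P ⟨hP1, hP2, u, hu⟩
        rw [Set.mem_iUnion]
        exact ⟨u, hP1, hP2, hu⟩
      exact (Set.finite_iUnion hc).subset hsub
    refine ⟨u, ?_⟩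
    rintro m ⟨n, hn, k, rfl⟩
    have h3 := alg_step hALG (by linarith) h2 b (fun χ => χ ((u * n : (ZMod q)ˣ) : ZMod q) * c χ *
      (l.map fun P : ℕ => hf (χ (P : ZMod q)) P ρ).prod) _ hu (by
        rintro P ⟨-, hPb, hPT⟩
        have h4 := hPT n hn
        rw [← h4]
        refine Finset.sum_congr rfl fun χ _ => ?_
        rw [List.map_cons, List.prod_cons, hPb]
        ring) k
    rw [← h3]
    refine Finset.sum_congr rfl fun χ _ => ?_
    push_cast
    rw [map_mul, map_mul, map_mul, map_pow]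
    ring

/-- a chain with a polar part at every fraction -/
theorem exists_chainA {ρ : ℂ} (hGP : GPat ρ) (hALG : S_ALG) (h1 : 1 / 2 < ρ.re) (h2 : ρ.re < 1) {q : ℕ}
    [NeZero q] (c : DirichletCharacter ℂ q → ℂ) (hc : ∃ χ, c χ ≠ 0) :
    ∃ l : List ℕ, Good ρ q l ∧ ∀ u : (ZMod q)ˣ, VV c ρ l u ≠ 0 := by
  classical
  by_contra hcon
  push Not at hcon
  obtain ⟨χ₁, hc1⟩ := hc
  apply hc1
  have h3 := indA hGP hALG h1 h2 c 0 (by
    intro l hl _
    obtain ⟨u, hu⟩ := hcon l hl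
    have hM : md q l ≠ 0 := md_ne (NeZero.ne q) l hl
    have : NeZero (md q l) := ⟨hM⟩
    obtain ⟨u', hu'⟩ := ZMod.unitsMap_surjective (dvd_md q l) u
    refine ⟨(u' : ZMod (md q l)).val, ZMod.val_coe_unit_coprime u', ?_⟩
    have h4 : (((u' : ZMod (md q l)).val : ℕ) : ZMod q) = (u : ZMod q) := by
      rw [← hu', ZMod.unitsMap_val, ZMod.natCast_val]
    rw [h4]
    exact hu)
    ((univ : Finset (ZMod q)ˣ).toList) [] trivial (fun _ => Nat.zero_le _)
  obtain ⟨u, hu⟩ := h3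
  refine lin_indep c (fun v => ?_) χ₁
  have h2 := hu (u⁻¹ * v) (mem_gen _ _ (mem_toList.2 (mem_univ _)))
  simp only [List.map_nil, List.prod_nil, mul_one, mul_inv_cancel_left] at h2
  exact h2

theorem ww_summableA {ρ : ℂ} (hDC : DCat ρ) (h2 : ρ.re < 1) {M : ℕ} (hM : M ≠ 0)
    {δ : ℝ} (hδ : 0 < δ) : Summable fun d : ℕ => ww' ρ M δ d / d := by
  classical
  have s1 := hDC M hM
  have s2 := summable_sq (fun d => ∃ P : ℕ, P.Prime ∧ d = P * P) (fun d h => h)
  have s3 : Summable fun d : ℕ => δ⁻¹ * (1 / (d : ℝ) ^ (2 - ρ.re)) :=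
    (Real.summable_one_div_nat_rpow.2 (by linarith)).mul_left _
  refine Summable.of_nonneg_of_le (fun d => div_nonneg (ww_nonneg hδ d) (Nat.cast_nonneg d))
    (fun d => ?_) (s1.add (s2.add s3))
  rcases Nat.eq_zero_or_pos d with rfl | hd
  · simp only [Nat.cast_zero, div_zero]
    have : (0 : ℝ) ≤ δ⁻¹ * (0 ^ (2 - ρ.re))⁻¹ := by positivity
    split_ifs <;> simp <;> positivity
  have hd0 : (0 : ℝ) < d := by exact_mod_cast hd
  have e1 : ∀ p : Prop, ∀ [Decidable p], (if p then (1 : ℝ) else 0) / d = if p then 1 / (d : ℝ) else 0 := by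
    intro p _
    split_ifs <;> simp
  have e2 : (if d.Prime then δ⁻¹ * (d : ℝ) ^ (ρ.re - 1) else 0) / d ≤ δ⁻¹ * (1 / (d : ℝ) ^ (2 - ρ.re)) := by
    have e3 : δ⁻¹ * (d : ℝ) ^ (ρ.re - 1) / d = δ⁻¹ * (1 / (d : ℝ) ^ (2 - ρ.re)) := by
      have e4 : (d : ℝ) ^ (ρ.re - 1) / d = 1 / (d : ℝ) ^ (2 - ρ.re) := by
        rw [one_div, ← Real.rpow_neg hd0.le, div_eq_mul_inv, ← Real.rpow_neg_one (d : ℝ),
          ← Real.rpow_add hd0]
        congr 1
        ring
      rw [mul_div_assoc, e4]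
    split_ifs
    · exact le_of_eq e3
    · rw [zero_div]; positivity
  unfold ww'
  by_cases h : d = 1
  · rw [if_pos h, zero_div]
    refine add_nonneg ?_ (add_nonneg ?_ (by positivity))
    · split_ifs <;> positivity
    · split_ifs <;> positivity
  · rw [if_neg h, add_div, add_div, e1, e1]
    exact add_le_add le_rfl (add_le_add le_rfl e2)

/-- **A positive proportion of the denominators.** -/
theorem densA {ρ : ℂ} (hGP : GPat ρ) (hALG : S_ALG) (hEL : S_EL) (hDC : DCat ρ) (hSV : S_SV) (hEX : S_EX)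
    (hNV : S_NV) {q : ℕ} [NeZero q] {χ₀ : DirichletCharacter ℂ q} (hρ : 1 / 2 < ρ.re)
    (hρ1 : ρ.re < 1) (h0 : LFunction χ₀ ρ = 0) (hE : EE χ₀ ρ ≠ 0) :
    ∃ c : ℝ, 0 < c ∧ ∃ x₀ : ℕ, ∀ x : ℕ, x₀ ≤ x → ∃ A : Finset ℕ, c * x ≤ A.card ∧
      ∀ Q ∈ A, 1 ≤ Q ∧ Q ≤ x ∧ Bad ρ.re Q := by
  classical
  have hρne : ρ ≠ 1 := by
    rintro rfl
    simp at hρ1
  have hρ0 : 0 < ρ.re := by linarith
  obtain ⟨σ, H, c, hσ, hH, hcne, hc⟩ := seq hρne χ₀ h0 hE
  obtain ⟨l, hl, hV⟩ := exists_chainA hGP hALG hρ hρ1 c hcne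
  have hM : md q l ≠ 0 := md_ne (NeZero.ne q) l hl
  obtain ⟨u₀, -, hu₀⟩ := Finset.exists_min_image (univ : Finset (ZMod q)ˣ) (fun u => ‖VV c ρ l u‖)
    ⟨1, mem_univ _⟩
  set v : ℝ := ‖VV c ρ l u₀‖ with hv
  have hvpos : 0 < v := norm_pos_iff.2 (hV u₀)
  have hvle : ∀ u : (ZMod q)ˣ, v ≤ ‖VV c ρ l u‖ := fun u => hu₀ u (mem_univ u)
  set B : ℝ := ∑ χ : DirichletCharacter ℂ q, ‖c χ * (l.map fun P : ℕ => hf (χ (P : ZMod q)) P ρ).prod‖
    with hB
  have hB0 : 0 ≤ B := Finset.sum_nonneg fun _ _ => norm_nonneg _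
  set ε : ℝ := v / (2 * (B + 1)) with hε
  have hεpos : 0 < ε := by positivity
  have hεB : B * ε < v := by
    have e1 : (B + 1) * ε = v / 2 := by
      rw [hε]
      field_simp
    nlinarith
  obtain ⟨δ, hδ, hδ2⟩ := hNV ρ ε hρ hρ1 hεpos
  obtain ⟨c₁, hc₁, x₀, hx₀⟩ := hSV (ww' ρ (md q l) δ) (ww_nonneg hδ) (by unfold ww'; simp)
    (ww_summableA hDC hρ1 hM hδ) (md q l)
  have hMpos : 0 < md q l := Nat.pos_of_ne_zero hM
  have hMR : (0 : ℝ) < (md q l : ℝ) := by exact_mod_cast hMpos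
  refine ⟨c₁ / (2 * md q l), by positivity, md q l * (x₀ + 1), fun x hx => ?_⟩
  obtain ⟨A, hA, hAm⟩ := hx₀ (x / md q l) (by
    rw [Nat.le_div_iff_mul_le hMpos]
    nlinarith)
  refine ⟨A.image fun m => md q l * m, ?_, ?_⟩
  · rw [Finset.card_image_of_injective _ fun a b h => Nat.eq_of_mul_eq_mul_left hMpos h]
    refine le_trans ?_ hA
    have e1 : (x : ℝ) / md q l < (x / md q l : ℕ) + 1 := by
      rw [div_lt_iff₀ hMR]
      have := Nat.lt_div_mul_add (a := x) hMpos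
      have e3 : (x : ℝ) < ((x / md q l : ℕ) : ℝ) * md q l + md q l := by exact_mod_cast this
      linarith
    have e2 : (1 : ℝ) ≤ (x / md q l : ℕ) := by
      have : 1 ≤ x / md q l := by
        rw [Nat.le_div_iff_mul_le hMpos]
        nlinarith
      exact_mod_cast this
    have e3 : c₁ / (2 * md q l) * x = c₁ * ((x : ℝ) / md q l / 2) := by
      field_simp
    rw [e3]
    refine mul_le_mul_of_nonneg_left ?_ hc₁.le
    linarith
  · intro Q hQ
    obtain ⟨m, hm, rfl⟩ := mem_image.1 hQ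
    obtain ⟨hm1, hmx, hmp, hmw⟩ := hAm m hm
    have hm0 : m ≠ 0 := by omega
    refine ⟨Nat.mul_pos hMpos hm1, ?_, ?_⟩
    · calc md q l * m ≤ md q l * (x / md q l) := Nat.mul_le_mul_left _ hmx
        _ ≤ x := Nat.mul_div_le x _
    have hwle : ∀ d, d ∣ m → ww' ρ (md q l) δ d < 1 := by
      intro d hd
      refine lt_of_le_of_lt ?_ hmw
      exact Finset.single_le_sum (f := ww' ρ (md q l) δ) (fun i _ => ww_nonneg hδ i)
        (Nat.mem_divisors.2 ⟨hd, hm0⟩)
    have hsq : Squarefree m := by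
      rw [Nat.squarefree_iff_prime_squarefree]
      intro p hp hd
      have h1 := hwle (p * p) hd
      have hp1 : p * p ≠ 1 := by
        have := hp.two_le
        nlinarith
      unfold ww' at h1
      rw [if_neg hp1, if_pos (⟨p, hp, rfl⟩ : ∃ P : ℕ, P.Prime ∧ p * p = P * P)] at h1
      have h2 : (0 : ℝ) ≤ if ∃ e, e ∣ md q l ∧ RR ρ (p * p * e) then 1 else 0 := by
        split_ifs <;> positivity
      have h3 : (0 : ℝ) ≤ if (p * p).Prime then δ⁻¹ * ((p * p : ℕ) : ℝ) ^ (ρ.re - 1) else 0 := by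
        split_ifs <;> positivity
      linarith
    have hnd : m.primeFactorsList.Nodup := (Nat.squarefree_iff_nodup_primeFactorsList hm0).1 hsq
    have hpr : m.primeFactorsList.prod = m := Nat.prod_primeFactorsList hm0
    have hps : ∀ P ∈ m.primeFactorsList, P.Prime ∧ ¬ P ∣ md q l := by
      intro P hP
      have hP1 := Nat.prime_of_mem_primeFactorsList hP
      have hP2 := Nat.dvd_of_mem_primeFactorsList hP
      refine ⟨hP1, fun h => ?_⟩
      have h1 := Nat.le_of_dvd hMpos h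
      have h2 := hmp P hP1 hP2
      omega
    have hRR : ∀ d e : ℕ, 1 < d → d ∣ m.primeFactorsList.prod → e ∣ md q l → ¬ RR ρ (d * e) := by
      intro d e hd1 hd he hr
      rw [hpr] at hd
      have h1 := hwle d hd
      unfold ww' at h1
      rw [if_neg hd1.ne', if_pos (⟨e, he, hr⟩ : ∃ e, e ∣ md q l ∧ RR ρ (d * e))] at h1
      have h2 : (0 : ℝ) ≤ if ∃ P : ℕ, P.Prime ∧ d = P * P then 1 else 0 := by
        split_ifs <;> positivity
      have h3 : (0 : ℝ) ≤ if d.Prime then δ⁻¹ * (d : ℝ) ^ (ρ.re - 1) else 0 := by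
        split_ifs <;> positivity
      linarith
    have hsum : (m.primeFactorsList.map fun P : ℕ => (P : ℝ) ^ (ρ.re - 1)).sum ≤ δ := by
      rw [← List.sum_toFinset _ hnd]
      have h1 : ∑ P ∈ m.primeFactorsList.toFinset, δ⁻¹ * (P : ℝ) ^ (ρ.re - 1) ≤
          ∑ d ∈ m.divisors, ww' ρ (md q l) δ d := by
        refine le_trans (Finset.sum_le_sum fun P hP => ?_)
          (Finset.sum_le_sum_of_subset_of_nonneg (f := ww' ρ (md q l) δ) ?_ fun d _ _ => ww_nonneg hδ d)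
        · rw [List.mem_toFinset] at hP
          have hP1 := Nat.prime_of_mem_primeFactorsList hP
          unfold ww'
          rw [if_neg hP1.one_lt.ne', if_pos hP1]
          have h2 : (0 : ℝ) ≤ if ∃ e, e ∣ md q l ∧ RR ρ (P * e) then 1 else 0 := by
            split_ifs <;> positivity
          have h3 : (0 : ℝ) ≤ if ∃ P' : ℕ, P'.Prime ∧ P = P' * P' then 1 else 0 := by
            split_ifs <;> positivity
          linarith
        · intro P hP
          rw [List.mem_toFinset] at hP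
          exact Nat.mem_divisors.2 ⟨Nat.dvd_of_mem_primeFactorsList hP, hm0⟩
      rw [← Finset.mul_sum] at h1
      have h2 := lt_of_le_of_lt h1 hmw
      rw [inv_mul_lt_iff₀ hδ, mul_one] at h2
      exact h2.le
    obtain ⟨hg, hmd⟩ := hEX ρ q l hρ0 hρne hl m.primeFactorsList hnd hps hRR
    rw [hpr] at hmd
    obtain ⟨A', hA', hA2⟩ := hδ2 m.primeFactorsList (fun P hP => (hps P hP).1) hsum
    rw [← hmd]
    refine bad_of hEL hρ0 hρ1 hρne hσ hH hc hg fun u => ?_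
    refine VV_append c hvle le_rfl hεpos.le hεB (fun P hP => ?_) hA' hA2 u
    rw [Nat.Prime.coprime_iff_not_dvd (hps P hP).1]
    intro h
    exact (hps P hP).2 (h.trans (dvd_md q l))

end Pool.Agent.T9h54.FF
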