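import Pool.Agent.T9h54.FF.DensA
import Pool.Agent.T9h54.LZ.Top

/-!
# Project FF: the final statements
-/

set_option autoImplicit false

namespace Pool.Agent.T9h54.FF

open Finset Filter Topology DirichletCharacter
open Pool.Agent.T9h54.LZ

/-- a rational point and a fraction in `[0, 1)` -/
theorem F_rat (x : ℚ) : ∃ j : ℕ, j.Coprime x.den ∧ ∀ R : ℕ, F R (x : ℝ) = F R ((j : ℝ) / (x.den : ℝ)) := by
  have hd : (0 : ℤ) < x.den := by exact_mod_cast x.den_pos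
  obtain ⟨j, hj⟩ : ∃ j : ℕ, (j : ℤ) = x.num % x.den :=
    ⟨(x.num % x.den).toNat, Int.toNat_of_nonneg (Int.emod_nonneg _ hd.ne')⟩
  have h1 : (j : ℤ) = x.num + (x.den : ℤ) * (-(x.num / x.den)) := by
    have := Int.emod_add_mul_ediv x.num x.den
    rw [hj]
    linarith
  refine ⟨j, ?_, fun R => ?_⟩
  · rw [← Nat.isCoprime_iff_coprime, h1]
    refine IsCoprime.add_mul_left_left ?_ _
    rw [Int.isCoprime_iff_gcd_eq_one]
    exact x.reduced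
  · have h2 : (x : ℝ) = (j : ℝ) / (x.den : ℝ) + ((x.num / x.den : ℤ) : ℝ) := by
      have h3 : (x : ℝ) = (x.num : ℝ) / (x.den : ℝ) := by
        exact_mod_cast (Rat.num_div_den x).symm
      have h4 : (j : ℝ) = (x.num : ℝ) + (x.den : ℝ) * (-((x.num / x.den : ℤ) : ℝ)) := by
        exact_mod_cast h1
      have h5 : (x.den : ℝ) ≠ 0 := by
        exact_mod_cast x.den_pos.ne'
      rw [h3, h4]
      field_simp
      ring
    rw [h2, F_add_int]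

/-- at every rational number with denominator `Q` the growth exponent is at least `β` -/
def AllBad (β : ℝ) (Q : ℕ) : Prop := ∀ x : ℚ, x.den = Q → ∀ b : ℝ, b < β → ∀ C : ℝ,
  ∃ᶠ R : ℕ in atTop, C * (R : ℝ) ^ b < ‖F R x‖

theorem allBad_of_bad {β : ℝ} (hβ : 0 < β) {Q : ℕ} (h : Bad β Q) : AllBad β Q := by
  intro x hx b hb C
  obtain ⟨j, hj, hF⟩ := F_rat x
  have hb' : max b 0 < β := max_lt hb hβ
  have h1 := h j (hx ▸ hj) (max b 0) hb'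
  push Not at h1
  have h2 := freq_of (x := (x : ℝ)) (b := max b 0) (le_max_right _ _) (fun C' => by
    obtain ⟨R, hR, hlt⟩ := h1 C'
    refine ⟨R, hR, ?_⟩
    rw [hF, hx]
    exact hlt) (max C 0)
  refine (h2.and_eventually (eventually_ge_atTop 1)).mono fun R ⟨hR, hR1⟩ => lt_of_le_of_lt ?_ hR
  have hR2 : (1 : ℝ) ≤ R := by exact_mod_cast hR1
  exact mul_le_mul (le_max_left _ _) (Real.rpow_le_rpow_of_exponent_le hR2 (le_max_left _ _))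
    (Real.rpow_nonneg (by linarith) _) (le_max_right _ _)

theorem dens1 {ρ : ℂ} (hGP : GPat ρ) (hALG : S_ALG) (hEL : S_EL) (hDC : DCat ρ) (hSV : S_SV)
    (hEX : S_EX) (hNV : S_NV) {q : ℕ} [NeZero q] {χ : DirichletCharacter ℂ q} (hρ : 1 / 2 < ρ.re)
    (hρ1 : ρ ≠ 1) (h0 : LFunction χ ρ = 0) :
    ∃ c : ℝ, 0 < c ∧ ∀ᶠ N : ℕ in atTop,
      c * N ≤ (Set.ncard {Q : ℕ | 1 ≤ Q ∧ Q ≤ N ∧ AllBad ρ.re Q} : ℝ) := by
  classical
  have hs2 : ρ.re < 1 := by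
    by_contra hc
    exact LFunction_ne_zero_of_one_le_re χ (Or.inr hρ1) (not_lt.1 hc) h0
  have : NeZero χ.conductor := ⟨fun hc => by
    have := χ.conductor_dvd_level
    rw [hc, zero_dvd_iff] at this
    exact NeZero.ne q this⟩
  have h2 : LFunction χ.primitiveCharacter ρ = 0 := by
    have h3 := Pool.Agent.T9h65.LZ.zero_iff χ.conductor_dvd_level χ.primitiveCharacter
      (ρ := ρ) (by linarith) hρ1
    rw [changeLevel_primitiveCharacter] at h3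
    exact h3.1 h0
  -- a large prime
  have hlim : Tendsto (fun P : ℕ => (P : ℝ) ^ (1 - ρ.re)) atTop atTop :=
    (tendsto_rpow_atTop (by linarith)).comp tendsto_natCast_atTop_atTop
  obtain ⟨K', hK'⟩ := eventually_atTop.1 (hlim.eventually_gt_atTop 2)
  obtain ⟨P, hPK, hP⟩ := Nat.exists_infinite_primes (max (K' + 1) (χ.conductor + 1))
  have hPq : ¬ P ∣ χ.conductor := by
    intro h
    have h1 := Nat.le_of_dvd (Nat.pos_of_ne_zero (NeZero.ne _)) h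
    have h3 := le_max_right (K' + 1) (χ.conductor + 1)
    omega
  have hPK' : K' ≤ P := by
    have h3 := le_max_left (K' + 1) (χ.conductor + 1)
    omega
  have : NeZero P := ⟨hP.ne_zero⟩
  have hQ : NeZero (χ.conductor * P) := ⟨mul_ne_zero (NeZero.ne _) hP.ne_zero⟩
  have hL : LFunction (changeLevel (dvd_mul_right χ.conductor P) χ.primitiveCharacter) ρ = 0 := by
    rw [LFunction_changeLevel (dvd_mul_right _ P) χ.primitiveCharacter (Or.inr hρ1), h2, zero_mul]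
  obtain ⟨c, hc, x₀, hx₀⟩ := densA hGP hALG hEL hDC hSV hEX hNV hρ hs2 hL
    (EE_lift_ne hP hPq χ.primitiveCharacter_isPrimitive (hK' P hPK'))
  refine ⟨c, hc, ?_⟩
  filter_upwards [eventually_ge_atTop x₀] with N hN
  obtain ⟨A, hA, hAQ⟩ := hx₀ N hN
  refine hA.trans ?_
  have h3 : A.card ≤ Set.ncard {Q : ℕ | 1 ≤ Q ∧ Q ≤ N ∧ AllBad ρ.re Q} := by
    rw [← Set.ncard_coe_finset]
    refine Set.ncard_le_ncard (fun Q hQ => ?_) ?_
    · obtain ⟨h4, h5, h6⟩ := hAQ Q hQ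
      exact ⟨h4, h5, allBad_of_bad (by linarith) h6⟩
    · exact (Set.finite_Icc 1 N).subset fun Q hQ => ⟨hQ.1, hQ.2.1⟩
  exact_mod_cast h3

/-- upper density one -/
def Full (p : ℕ → Prop) : Prop := ∀ c : ℝ, c < 1 → ∃ᶠ N : ℕ in atTop,
  c * N ≤ (Set.ncard {Q : ℕ | 1 ≤ Q ∧ Q ≤ N ∧ p Q} : ℝ)

theorem full_of_all {p : ℕ → Prop} (h : ∀ Q : ℕ, 1 ≤ Q → p Q) : Full p := by
  intro c hc
  refine Eventually.frequently (Eventually.of_forall fun N => ?_)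
  have h1 : {Q : ℕ | 1 ≤ Q ∧ Q ≤ N ∧ p Q} = (Finset.Icc 1 N : Set ℕ) := by
    ext Q
    simp only [Set.mem_setOf_eq, Finset.coe_Icc, Set.mem_Icc]
    exact ⟨fun h => ⟨h.1, h.2.1⟩, fun h' => ⟨h'.1, h'.2, h Q h'.1⟩⟩
  rw [h1, Set.ncard_coe_finset, Nat.card_Icc, Nat.add_sub_cancel]
  have : (0 : ℝ) ≤ N := Nat.cast_nonneg N
  nlinarith

theorem meet {p r : ℕ → Prop} (hp : Full p) {c : ℝ} (hc : 0 < c) (hr : ∀ᶠ N : ℕ in atTop,
    c * N ≤ (Set.ncard {Q : ℕ | 1 ≤ Q ∧ Q ≤ N ∧ r Q} : ℝ)) : ∃ Q, p Q ∧ r Q := by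
  by_contra hcon
  push Not at hcon
  obtain ⟨N, hN, hN2, hN1⟩ := ((hp (1 - c / 2) (by linarith)).and_eventually
    (hr.and (eventually_ge_atTop 1))).exists
  have hfin : ∀ s : ℕ → Prop, {Q : ℕ | 1 ≤ Q ∧ Q ≤ N ∧ s Q}.Finite := fun s =>
    (Set.finite_Icc 1 N).subset fun Q hQ => ⟨hQ.1, hQ.2.1⟩
  have hdis : Disjoint {Q : ℕ | 1 ≤ Q ∧ Q ≤ N ∧ p Q} {Q : ℕ | 1 ≤ Q ∧ Q ≤ N ∧ r Q} := by
    rw [Set.disjoint_left]
    rintro Q ⟨-, -, h1⟩ ⟨-, -, h2⟩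
    exact hcon Q h1 h2
  have h1 := Set.ncard_union_eq hdis (hfin p) (hfin r)
  have h2 : ({Q : ℕ | 1 ≤ Q ∧ Q ≤ N ∧ p Q} ∪ {Q : ℕ | 1 ≤ Q ∧ Q ≤ N ∧ r Q}).ncard ≤ N := by
    have h3 : ({Q : ℕ | 1 ≤ Q ∧ Q ≤ N ∧ p Q} ∪ {Q : ℕ | 1 ≤ Q ∧ Q ≤ N ∧ r Q}) ⊆
        (Finset.Icc 1 N : Set ℕ) := by
      rintro Q (hQ | hQ)
      · simp only [Finset.coe_Icc, Set.mem_Icc]; exact ⟨hQ.1, hQ.2.1⟩
      · simp only [Finset.coe_Icc, Set.mem_Icc]; exact ⟨hQ.1, hQ.2.1⟩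
    have h4 := Set.ncard_le_ncard h3 (Finset.finite_toSet _)
    rw [Set.ncard_coe_finset, Nat.card_Icc, Nat.add_sub_cancel] at h4
    exact h4
  rw [h1] at h2
  have h5 : ((Set.ncard {Q : ℕ | 1 ≤ Q ∧ Q ≤ N ∧ p Q} : ℝ)) +
      (Set.ncard {Q : ℕ | 1 ≤ Q ∧ Q ≤ N ∧ r Q} : ℝ) ≤ N := by exact_mod_cast h2
  have hN0 : (1 : ℝ) ≤ N := by exact_mod_cast hN1
  nlinarith

/-- **(B)** -/
theorem topB {θ : ℝ} (hθ : 1 / 2 ≤ θ) (hAt : ∀ ρ : ℂ, θ < ρ.re → ρ.re < 1 → GPat ρ ∧ DCat ρ)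
    (hALG : S_ALG) (hEL : S_EL) (hSV : S_SV) (hEX : S_EX) (hNV : S_NV) {a : ℝ} (ha : θ ≤ a)
    (h : Full fun Q => ∃ x : ℚ, x.den = Q ∧ GrowthAt a x) : ZeroFree a := by
  intro q _ χ s hs hs1 h0
  have hs2 : s.re < 1 := by
    by_contra hc
    exact LFunction_ne_zero_of_one_le_re χ (Or.inr hs1) (not_lt.1 hc) h0
  obtain ⟨hGP, hDC⟩ := hAt s (by linarith) hs2
  obtain ⟨c, hc, hN⟩ := dens1 hGP hALG hEL hDC hSV hEX hNV (by linarith) hs1 h0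
  obtain ⟨Q, ⟨x, hx, hg⟩, hbad⟩ := meet h hc hN
  obtain ⟨C, hC⟩ := hg ((s.re - a) / 2) (by linarith)
  have h1 := hbad x hx (a + (s.re - a) / 2) (by linarith) C
  obtain ⟨R, hR, hR1⟩ := (h1.and_eventually (eventually_ge_atTop 1)).exists
  exact absurd (hC R hR1) (not_le.2 hR)

/-- the bound `O(R^(1-δ))` at the point `x` -/
def SavingAt (δ x : ℝ) : Prop := ∃ C : ℝ, ∀ R : ℕ, 1 ≤ R → ‖F R x‖ ≤ C * (R : ℝ) ^ (1 - δ)

theorem topD {θ : ℝ} (hθ : 1 / 2 ≤ θ) (hθ1 : θ < 1)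
    (hAt : ∀ ρ : ℂ, θ < ρ.re → ρ.re < 1 → GPat ρ ∧ DCat ρ)
    (hALG : S_ALG) (hEL : S_EL) (hSV : S_SV) (hEX : S_EX) (hNV : S_NV) (hM1 : S_M1) (hM2 : S_M2) :
    List.TFAE [∃ δ : ℝ, 0 < δ ∧ Full fun Q => ∃ x : ℚ, x.den = Q ∧ SavingAt δ x, Uniform,
      ∃ a : ℝ, a < 1 ∧ ZeroFree a] := by
  tfae_have 1 → 3 := by
    rintro ⟨δ, hδ, h⟩
    refine ⟨max θ (1 - δ), max_lt hθ1 (by linarith), ?_⟩
    refine topB hθ hAt hALG hEL hSV hEX hNV (le_max_left _ _) ?_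
    have himp : ∀ Q, (∃ x : ℚ, x.den = Q ∧ SavingAt δ x) →
        ∃ x : ℚ, x.den = Q ∧ GrowthAt (max θ (1 - δ)) x := by
      rintro Q ⟨x, hx, C, hC⟩
      refine ⟨x, hx, fun ε hε => ⟨max C 0, fun R hR => ?_⟩⟩
      have hR1 : (1 : ℝ) ≤ R := by exact_mod_cast hR
      refine (hC R hR).trans ?_
      refine mul_le_mul (le_max_left _ _) (Real.rpow_le_rpow_of_exponent_le hR1 ?_)
        (Real.rpow_nonneg (by linarith) _) (le_max_right _ _)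
      have := le_max_right θ (1 - δ)
      linarith
    intro c hc
    refine (h c hc).mono fun N hN => hN.trans ?_
    have h3 : Set.ncard {Q : ℕ | 1 ≤ Q ∧ Q ≤ N ∧ ∃ x : ℚ, x.den = Q ∧ SavingAt δ x} ≤
        Set.ncard {Q : ℕ | 1 ≤ Q ∧ Q ≤ N ∧ ∃ x : ℚ, x.den = Q ∧ GrowthAt (max θ (1 - δ)) x} := by
      refine Set.ncard_le_ncard (fun Q hQ => ⟨hQ.1, hQ.2.1, himp Q hQ.2.2⟩) ?_
      exact (Set.finite_Icc 1 N).subset fun Q hQ => ⟨hQ.1, hQ.2.1⟩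
    exact_mod_cast h3
  tfae_have 3 → 2 := fun h => Pool.Agent.T9h53.LZ.m3 hM1 hM2 h
  tfae_have 2 → 1 := by
    rintro ⟨δ, hδ, C, hC⟩
    refine ⟨δ, hδ, full_of_all fun Q hQ => ?_⟩
    refine ⟨1 / (Q : ℚ), ?_, C, fun R hR => hC R _ hR⟩
    have hQ0 : Q ≠ 0 := by omega
    rw [one_div, Rat.inv_natCast_den, if_neg hQ0]
  tfae_finish

/-- **(C)** -/
theorem topC (hGK : S_GK) {a κ : ℝ} (ha : 1 / 2 ≤ a) (hκ : 1 / 2 < κ) (hκ1 : κ ≤ 1)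
    (hE : ∀ (q : ℕ) [NeZero q] (ρ : ℂ), a < ρ.re → ρ.re < 1 → ∃ δ : ℝ, 0 < δ ∧ ∀ K : ℕ,
      ∃ P : ℕ, P.Prime ∧ K < P ∧ ¬ P ∣ q ∧ ∀ [NeZero (q * P)],
      (Set.ncard {χ : DirichletCharacter ℂ (q * P) | DirichletCharacter.LFunction χ ρ = 0} : ℝ) ≤
        (P : ℝ) ^ (κ - 1 / 2 - δ))
    (h : ∀ᶠ Q : ℕ in atTop, ∃ A : ℕ, ∀ j : ℕ, j.Coprime Q → A < j → (j : ℝ) ≤ A + (Q : ℝ) ^ κ →
      GrowthAt a ((j : ℝ) / (Q : ℝ))) : ZeroFree a := by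
  classical
  intro q₀ _ χ₀ ρ hρ hρne h00
  have hρ1 : ρ.re < 1 := by
    by_contra hc
    exact LFunction_ne_zero_of_one_le_re χ₀ (Or.inr hρne) (not_lt.1 hc) h00
  -- the primitive character
  have : NeZero χ₀.conductor := ⟨fun hc => by
    have := χ₀.conductor_dvd_level
    rw [hc, zero_dvd_iff] at this
    exact NeZero.ne q₀ this⟩
  have h0 : LFunction χ₀.primitiveCharacter ρ = 0 := by
    have h3 := Pool.Agent.T9h65.LZ.zero_iff χ₀.conductor_dvd_level χ₀.primitiveCharacter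
      (ρ := ρ) (by linarith) hρne
    rw [changeLevel_primitiveCharacter] at h3
    exact h3.1 h00
  obtain ⟨q, hq, χ, hχ, h0⟩ : ∃ (q : ℕ) (_ : NeZero q) (χ : DirichletCharacter ℂ q), χ.IsPrimitive ∧
      LFunction χ ρ = 0 := ⟨χ₀.conductor, inferInstance, χ₀.primitiveCharacter,
        χ₀.primitiveCharacter_isPrimitive, h0⟩
  obtain ⟨Q₀, hQ₀⟩ := eventually_atTop.1 h
  set a' : ℝ := (a + ρ.re) / 2 with ha'
  have ha0 : 0 ≤ a' := by rw [ha']; linarith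
  have ha1 : a' < 1 := by rw [ha']; linarith
  have hρ' : a' < ρ.re := by rw [ha']; linarith
  obtain ⟨δ, hδ, hE⟩ := hE q ρ hρ hρ1
  obtain ⟨K, hK⟩ := hGK q κ δ hκ hκ1 hδ
  have hlim : Tendsto (fun P : ℕ => (P : ℝ) ^ (1 - ρ.re)) atTop atTop :=
    (tendsto_rpow_atTop (by linarith)).comp tendsto_natCast_atTop_atTop
  obtain ⟨K', hK'⟩ := eventually_atTop.1 (hlim.eventually_gt_atTop 2)
  obtain ⟨P, hP, hPK, hPq, hcard⟩ := hE (max (max K K') Q₀)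
  have hPK1 : K < P := by
    have h1 := le_max_left (max K K') Q₀
    have h2 := le_max_left K K'
    omega
  have hPK2 : K' ≤ P := by
    have h1 := le_max_left (max K K') Q₀
    have h2 := le_max_right K K'
    omega
  have hPK3 : Q₀ ≤ P := by
    have h1 := le_max_right (max K K') Q₀
    omega
  have : NeZero P := ⟨hP.ne_zero⟩
  have hQ : NeZero (q * P) := ⟨mul_ne_zero (NeZero.ne q) hP.ne_zero⟩
  have hQP : P ≤ q * P := Nat.le_mul_of_pos_left P (Nat.pos_of_ne_zero (NeZero.ne q))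
  obtain ⟨A, hA⟩ := hQ₀ (q * P) (hPK3.trans hQP)
  have hc := @hcard hQ
  obtain ⟨B, hB⟩ : ∃ B : Finset (DirichletCharacter ℂ (q * P)),
      B = univ.filter fun χ => LFunction χ ρ = 0 := ⟨_, rfl⟩
  have hBc : (B.card : ℝ) ≤ (P : ℝ) ^ (κ - 1 / 2 - δ) := by
    have e : Set.ncard {χ : DirichletCharacter ℂ (q * P) | LFunction χ ρ = 0} = B.card := by
      rw [← Set.ncard_coe_finset, hB]
      congr 1
      ext χ
      simp
    rw [← e]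
    exact hc
  set J : Set (ZMod (q * P))ˣ := {b | ∃ j : ℕ, j.Coprime (q * P) ∧ A < j ∧
    (j : ℝ) ≤ A + ((q * P : ℕ) : ℝ) ^ κ ∧ (b : ZMod (q * P)) = (j : ZMod (q * P))} with hJd
  have hJ : ∀ b ∈ J, ∃ C : ℝ, ∀ R : ℕ, 1 ≤ R →
      ‖∑ n ∈ Icc 1 R, mu n * ad (b : ZMod (q * P)) n‖ ≤ C * (R : ℝ) ^ a' := by
    rintro b ⟨j, hj1, hj2, hj3, hj4⟩
    obtain ⟨C, hC⟩ := hA j hj1 hj2 hj3 (a' - a) (by rw [ha']; linarith)
    refine ⟨C, fun R hR => ?_⟩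
    have h1 := hC R hR
    rw [add_sub_cancel, F_eq] at h1
    rw [hj4]
    exact h1
  have hL : LFunction (changeLevel (dvd_mul_right q P) χ) ρ = 0 := by
    rw [LFunction_changeLevel (dvd_mul_right q P) χ (Or.inr hρne), h0, zero_mul]
  obtain ⟨g, ⟨χ₁, hg1⟩, hg2, hg3⟩ := pole ha0 ha1 hρ' hρne J hJ
    (changeLevel (dvd_mul_right q P) χ) hL
    (EE_lift_ne hP hPq hχ (hK' P hPK2))
  have hind : ∀ χ ∈ B, g χ = 0 := by
    refine hK P hP hPK1 A B hBc g fun j hj hj1 hj2 => ?_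
    have hbj : ((ZMod.unitOfCoprime j hj : (ZMod (q * P))ˣ) : ZMod (q * P)) = (j : ZMod (q * P)) :=
      ZMod.coe_unitOfCoprime j hj
    have h3 := hg3 (ZMod.unitOfCoprime j hj) ⟨j, hj, hj1, hj2, hbj⟩
    rw [hbj] at h3
    rw [← h3]
    refine Finset.sum_subset (Finset.subset_univ B) fun χ _ hχ' => ?_
    have h4 : LFunction χ ρ ≠ 0 := by
      intro h4
      apply hχ'
      rw [hB, mem_filter]
      exact ⟨mem_univ _, h4⟩
    rw [hg2 χ h4, zero_mul]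
  apply hg1
  by_cases h5 : LFunction χ₁ ρ = 0
  · exact hind χ₁ (by rw [hB, mem_filter]; exact ⟨mem_univ _, h5⟩)
  · exact hg2 χ₁ h5

end Pool.Agent.T9h54.FF
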