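import Pool.Agent.T9h54.FF.Spec4
import Pool.Agent.T9h54.FF.Top

/-!
# Project FF: all but few fractions of each denominator, assembly
-/

set_option autoImplicit false

namespace Pool.Agent.T9h54.FF

open Finset Filter Topology DirichletCharacter
open Pool.Agent.T9h54.LZ

theorem topE (hE1 : S_E1I) (hE2 : S_E2K3) (hUP : S_UP) {a κ : ℝ} (ha : 1 / 2 ≤ a)
    (hκ1 : κ < 1) (hκ : κ ≤ 2 * (2 * a - 1) / (3 - 2 * a))
    (h : ∀ᶠ Q : ℕ in atTop, (Set.ncard {j : ℕ | 1 ≤ j ∧ j ≤ Q ∧ j.Coprime Q ∧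
      ¬ GrowthAt a ((j : ℝ) / (Q : ℝ))} : ℝ) ≤ (Q : ℝ) ^ κ) : ZeroFree a := by
  classical
  intro q₀ _ χ₀ ρ hρ hρne h00
  have hρ1 : ρ.re < 1 := by
    by_contra hc
    exact LFunction_ne_zero_of_one_le_re χ₀ (Or.inr hρne) (not_lt.1 hc) h00
  -- the primitive character
  have : NeZero χ₀.conductor := ⟨fun hc => by
    have := χ₀.conductor_dvd_level
    rw [hc, zero_dvd_iff] at this
    exact NeZero.ne q₀ this⟩
  have h0 : LFunction χ₀.primitiveCharacter ρ = 0 := by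
    have h3 := Pool.Agent.T9h65.LZ.zero_iff χ₀.conductor_dvd_level χ₀.primitiveCharacter
      (ρ := ρ) (by linarith) hρne
    rw [changeLevel_primitiveCharacter] at h3
    exact h3.1 h00
  obtain ⟨q, hq, χ, hχ, h0⟩ : ∃ (q : ℕ) (_ : NeZero q) (χ : DirichletCharacter ℂ q), χ.IsPrimitive ∧
      LFunction χ ρ = 0 := ⟨χ₀.conductor, inferInstance, χ₀.primitiveCharacter,
        χ₀.primitiveCharacter_isPrimitive, h0⟩
  obtain ⟨Q₀, hQ₀⟩ := eventually_atTop.1 h
  set a' : ℝ := (a + ρ.re) / 2 with ha'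
  have ha0 : 0 ≤ a' := by rw [ha']; linarith
  have ha1 : a' < 1 := by rw [ha']; linarith
  have hρ' : a' < ρ.re := by rw [ha']; linarith
  -- the exponent
  have he : 8 * (1 - ρ.re) / (3 - 2 * ρ.re) < 2 - κ := by
    rw [le_div_iff₀ (by linarith)] at hκ
    rw [div_lt_iff₀ (by linarith)]
    have h1 : 8 * (1 - ρ.re) - (2 - κ) * (3 - 2 * ρ.re) =
        (κ * (3 - 2 * a) - 2 * (2 * a - 1)) - (ρ.re - a) * (4 + 2 * κ) := by ring
    by_cases hk : 0 < 4 + 2 * κ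
    · have h2 := mul_pos (show 0 < ρ.re - a by linarith) hk
      linarith
    · push Not at hk
      nlinarith [mul_nonneg (show 0 ≤ -(4 + 2 * κ) by linarith) (show 0 ≤ 1 - ρ.re by linarith)]
  obtain ⟨e, he1, he2⟩ := exists_between he
  obtain ⟨C, hC⟩ := hE1 ρ e (by linarith) hρ1 he1
  obtain ⟨δ, hδ, hE⟩ := hE2 q ρ (1 - κ) e C (by linarith) (by linarith) (by linarith) hρ1 hC
  have hlim : Tendsto (fun P : ℕ => (P : ℝ) ^ (1 - ρ.re)) atTop atTop :=
    (tendsto_rpow_atTop (by linarith)).comp tendsto_natCast_atTop_atTop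
  obtain ⟨K', hK'⟩ := eventually_atTop.1 (hlim.eventually_gt_atTop 2)
  have hlim2 : Tendsto (fun P : ℕ => (P : ℝ) ^ δ) atTop atTop :=
    (tendsto_rpow_atTop hδ).comp tendsto_natCast_atTop_atTop
  obtain ⟨K, hK⟩ := eventually_atTop.1 (hlim2.eventually_gt_atTop (2 * (q : ℝ) ^ κ))
  obtain ⟨P, hP, hPK, hPq, hcard⟩ := hE (max (max K K') Q₀)
  have hPK1 : K ≤ P := by
    have h1 := le_max_left (max K K') Q₀
    have h2 := le_max_left K K'
    omega
  have hPK2 : K' ≤ P := by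
    have h1 := le_max_left (max K K') Q₀
    have h2 := le_max_right K K'
    omega
  have hPK3 : Q₀ ≤ P := by
    have h1 := le_max_right (max K K') Q₀
    omega
  have : NeZero P := ⟨hP.ne_zero⟩
  have hQ : NeZero (q * P) := ⟨mul_ne_zero (NeZero.ne q) hP.ne_zero⟩
  have hq0 : 0 < q := Nat.pos_of_ne_zero (NeZero.ne q)
  have hQP : P ≤ q * P := Nat.le_mul_of_pos_left P hq0
  have hA := hQ₀ (q * P) (hPK3.trans hQP)
  have hc := @hcard hQ
  obtain ⟨B, hB⟩ : ∃ B : Finset (DirichletCharacter ℂ (q * P)),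
      B = univ.filter fun χ => LFunction χ ρ = 0 := ⟨_, rfl⟩
  have hBc : (B.card : ℝ) ≤ (P : ℝ) ^ (1 - κ - δ) := by
    have e : Set.ncard {χ : DirichletCharacter ℂ (q * P) | LFunction χ ρ = 0} = B.card := by
      rw [← Set.ncard_coe_finset, hB]
      congr 1
      ext χ
      simp
    rw [← e]
    exact hc
  have hQ1 : 1 < q * P := lt_of_lt_of_le hP.one_lt hQP
  obtain ⟨Jx, hJx⟩ : ∃ Jx : Finset (ZMod (q * P))ˣ, Jx = univ.filter fun b : (ZMod (q * P))ˣ =>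
      ¬ GrowthAt a (((b : ZMod (q * P)).val : ℝ) / ((q * P : ℕ) : ℝ)) := ⟨_, rfl⟩
  have hJc : (Jx.card : ℝ) ≤ ((q * P : ℕ) : ℝ) ^ κ := by
    refine le_trans ?_ hA
    have h1 : Jx.card ≤ Set.ncard {j : ℕ | 1 ≤ j ∧ j ≤ q * P ∧ j.Coprime (q * P) ∧
      ¬ GrowthAt a ((j : ℝ) / ((q * P : ℕ) : ℝ))} := by
      rw [← Set.ncard_coe_finset]
      refine Set.ncard_le_ncard_of_injOn (fun b : (ZMod (q * P))ˣ => (b : ZMod (q * P)).val) ?_ ?_ ?_
      · intro b hb
        rw [mem_coe, hJx, mem_filter] at hb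
        have h2 := ZMod.val_coe_unit_coprime b
        refine ⟨?_, (ZMod.val_lt _).le, h2, hb.2⟩
        rcases Nat.eq_zero_or_pos (b : ZMod (q * P)).val with h3 | h3
        · rw [h3, Nat.coprime_zero_left] at h2
          omega
        · exact h3
      · intro b _ b' _ hbb
        exact Units.ext (ZMod.val_injective _ hbb)
      · exact (Set.finite_Icc 1 (q * P)).subset fun j hj => ⟨hj.1, hj.2.1⟩
    exact_mod_cast h1
  have hJ : ∀ b ∈ {b : (ZMod (q * P))ˣ | b ∉ Jx}, ∃ C : ℝ, ∀ R : ℕ, 1 ≤ R →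
      ‖∑ n ∈ Icc 1 R, mu n * ad (b : ZMod (q * P)) n‖ ≤ C * (R : ℝ) ^ a' := by
    intro b hb
    rw [Set.mem_setOf_eq, hJx, mem_filter] at hb
    have hg : GrowthAt a (((b : ZMod (q * P)).val : ℝ) / ((q * P : ℕ) : ℝ)) := by
      by_contra hc
      exact hb ⟨mem_univ _, hc⟩
    obtain ⟨C, hC⟩ := hg (a' - a) (by rw [ha']; linarith)
    refine ⟨C, fun R hR => ?_⟩
    have h1 := hC R hR
    rw [add_sub_cancel, F_eq, ZMod.natCast_zmod_val] at h1
    exact h1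
  have hL : LFunction (changeLevel (dvd_mul_right q P) χ) ρ = 0 := by
    rw [LFunction_changeLevel (dvd_mul_right q P) χ (Or.inr hρne), h0, zero_mul]
  obtain ⟨g, ⟨χ₁, hg1⟩, hg2, hg3⟩ := pole ha0 ha1 hρ' hρne {b : (ZMod (q * P))ˣ | b ∉ Jx} hJ
    (changeLevel (dvd_mul_right q P) χ) hL
    (EE_lift_ne hP hPq hχ (hK' P hPK2))
  -- the numerical condition
  have hP0 : (0 : ℝ) < P := by exact_mod_cast hP.pos
  have hqR : (0 : ℝ) < q := by exact_mod_cast hq0
  have hnum : Jx.card * B.card < (q * P).totient := by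
    have h1 : (Jx.card : ℝ) * B.card ≤ ((q * P : ℕ) : ℝ) ^ κ * (P : ℝ) ^ (1 - κ - δ) :=
      mul_le_mul hJc hBc (Nat.cast_nonneg _) (by positivity)
    have h2 : ((q * P : ℕ) : ℝ) ^ κ * (P : ℝ) ^ (1 - κ - δ) = (q : ℝ) ^ κ * (P : ℝ) ^ (1 - δ) := by
      push_cast
      rw [Real.mul_rpow hqR.le hP0.le, mul_assoc, ← Real.rpow_add hP0]
      congr 2
      ring
    have h3 : (P : ℝ) ^ (1 - δ) * (P : ℝ) ^ δ = P := by
      rw [← Real.rpow_add hP0]
      simp
    have h4 := hK P hPK1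
    have h5 : 0 < (P : ℝ) ^ (1 - δ) := Real.rpow_pos_of_pos hP0 _
    have h6 : (q : ℝ) ^ κ * (P : ℝ) ^ (1 - δ) < (P : ℝ) / 2 := by nlinarith
    have h7 : (q * P).totient = q.totient * (P - 1) := by
      rw [Nat.totient_mul ((Nat.Prime.coprime_iff_not_dvd hP).2 hPq).symm, Nat.totient_prime hP]
    have h8 : P - 1 ≤ (q * P).totient := by
      rw [h7]
      exact Nat.le_mul_of_pos_left _ (Nat.totient_pos.2 hq0)
    have h9 : (P : ℝ) / 2 ≤ ((P - 1 : ℕ) : ℝ) := by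
      rw [Nat.cast_sub hP.one_lt.le]
      have : (2 : ℝ) ≤ P := by exact_mod_cast hP.two_le
      push_cast
      linarith
    have h10 : ((P - 1 : ℕ) : ℝ) ≤ ((q * P).totient : ℝ) := by exact_mod_cast h8
    have h11 : ((Jx.card * B.card : ℕ) : ℝ) < ((q * P).totient : ℝ) := by
      push_cast
      linarith
    exact_mod_cast h11
  have hind : ∀ χ ∈ B, g χ = 0 := by
    refine hUP (q * P) B g Jx hnum fun u hu => ?_
    rw [← hg3 u hu]
    refine Finset.sum_subset (Finset.subset_univ B) fun χ _ hχ' => ?_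
    have h4 : LFunction χ ρ ≠ 0 := by
      intro h4
      apply hχ'
      rw [hB, mem_filter]
      exact ⟨mem_univ _, h4⟩
    rw [hg2 χ h4, zero_mul]
  apply hg1
  by_cases h5 : LFunction χ₁ ρ = 0
  · exact hind χ₁ (by rw [hB, mem_filter]; exact ⟨mem_univ _, h5⟩)
  · exact hg2 χ₁ h5

end Pool.Agent.T9h54.FF
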