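import Pool.Agent.T9h54.FF.Top
import Pool.Agent.T9h22.FF.El
import Pool.Agent.T9h31.FF.E2k
import Pool.Agent.T9h41.FF.Gk
import Pool.Agent.T9h41.FF.Ex
import Pool.Agent.T9h51.FF.Sv
import Pool.Agent.T9h51.LZ.M1
import Pool.Agent.T9h53.LZ.M2
import Pool.Agent.T9h56.FF.Alg
import Pool.Agent.T9h69.FF.Dc
import Pool.Agent.T9h69.FF.Gp
import Pool.Agent.T9h85.FF.E1g
import Pool.Agent.T9h93.FF.Nv

/-!
# Project FF: assembly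
-/

set_option autoImplicit false

namespace Pool.Agent.T9h54.FF

open Finset Filter Topology DirichletCharacter
open Pool.Agent.T9h54.LZ

theorem at5 (ρ : ℂ) (h1 : 5 / 6 < ρ.re) (h2 : ρ.re < 1) : GPat ρ ∧ DCat ρ :=
  ⟨fun q M _ _ b hb K => Pool.Agent.T9h69.FF.gp Pool.Agent.T9h85.FF.e1g q M b ρ h1 h2 hb K,
    fun M hM => Pool.Agent.T9h69.FF.dc Pool.Agent.T9h85.FF.e1g ρ h1 h2 M hM⟩

/-- (A) -/
theorem finA {θ : ℝ} (hθ : 1 / 2 ≤ θ) (hAt : ∀ ρ : ℂ, θ < ρ.re → ρ.re < 1 → GPat ρ ∧ DCat ρ)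
    {q : ℕ} [NeZero q] (χ : DirichletCharacter ℂ q) (s : ℂ) (hs : θ < s.re) (hs1 : s ≠ 1)
    (h0 : LFunction χ s = 0) : ∃ c : ℝ, 0 < c ∧ ∀ᶠ N : ℕ in atTop,
      c * N ≤ (Set.ncard {Q : ℕ | 1 ≤ Q ∧ Q ≤ N ∧ AllBad s.re Q} : ℝ) := by
  have hs2 : s.re < 1 := by
    by_contra hc
    exact LFunction_ne_zero_of_one_le_re χ (Or.inr hs1) (not_lt.1 hc) h0
  obtain ⟨hGP, hDC⟩ := hAt s hs hs2
  exact dens1 hGP Pool.Agent.T9h56.FF.alg Pool.Agent.T9h22.FF.el hDC Pool.Agent.T9h51.FF.sv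
    Pool.Agent.T9h41.FF.ex Pool.Agent.T9h93.FF.nv (by linarith) hs1 h0

/-- (B) -/
theorem finB {θ : ℝ} (hθ : 1 / 2 ≤ θ) (hAt : ∀ ρ : ℂ, θ < ρ.re → ρ.re < 1 → GPat ρ ∧ DCat ρ)
    {a : ℝ} (ha : θ ≤ a) (h : Full fun Q => ∃ x : ℚ, x.den = Q ∧ GrowthAt a x) : ZeroFree a :=
  topB hθ hAt Pool.Agent.T9h56.FF.alg Pool.Agent.T9h22.FF.el Pool.Agent.T9h51.FF.sv
    Pool.Agent.T9h41.FF.ex Pool.Agent.T9h93.FF.nv ha h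

/-- (D) -/
theorem finD : List.TFAE [∃ δ : ℝ, 0 < δ ∧ Full fun Q => ∃ x : ℚ, x.den = Q ∧ SavingAt δ x, Uniform,
      ∃ a : ℝ, a < 1 ∧ ZeroFree a] :=
  topD (θ := 5 / 6) (by norm_num) (by norm_num) at5 Pool.Agent.T9h56.FF.alg Pool.Agent.T9h22.FF.el
    Pool.Agent.T9h51.FF.sv Pool.Agent.T9h41.FF.ex Pool.Agent.T9h93.FF.nv Pool.Agent.T9h51.LZ.m1
    Pool.Agent.T9h53.LZ.m2

/-- (C), with (E1G) -/
theorem finC5 {a κ : ℝ} (hκ : 1 / 2 < κ) (hκ1 : κ ≤ 1) (ha : (13 - 6 * κ) / (14 - 4 * κ) ≤ a)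
    (h : ∀ᶠ Q : ℕ in atTop, ∃ A : ℕ, ∀ j : ℕ, j.Coprime Q → A < j → (j : ℝ) ≤ A + (Q : ℝ) ^ κ →
      GrowthAt a ((j : ℝ) / (Q : ℝ))) : ZeroFree a := by
  have h1 : (1 : ℝ) / 2 ≤ (13 - 6 * κ) / (14 - 4 * κ) := by
    rw [div_le_div_iff₀ (by norm_num) (by linarith)]
    linarith
  refine topC Pool.Agent.T9h41.FF.gk (h1.trans ha) hκ hκ1 (fun q _ ρ hρ hρ1 => ?_) h
  exact Pool.Agent.T9h31.FF.e2k Pool.Agent.T9h85.FF.e1g q ρ κ hκ hκ1 (lt_of_le_of_lt ha hρ) hρ1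

end Pool.Agent.T9h54.FF
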