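import Pool.Agent.T9h54.FF.Spec3
import Pool.Agent.T9h69.FF.Gp

/-!
# Project FF, pieces GP2 and DC2 (the proofs of helper69 in `T9h69/FF/{Gp, Dc}.lean`, any exponent `e < 1`)
-/

set_option autoImplicit false

namespace Pool.Agent.T9h54.FF

open Finset Filter DirichletCharacter
open Pool.Agent.T9h65.LZ Pool.Agent.T9h69.FF

theorem weaken {ρ : ℂ} {e C : ℝ} (he1 : e < 1) (hC : ∀ R : ℕ, 1 ≤ R → Cnt ρ R ≤ C * (R : ℝ) ^ e) :
    ∃ e' C' : ℝ, 0 < e' ∧ e' < 1 ∧ ∀ R : ℕ, 1 ≤ R → Cnt ρ R ≤ C' * (R : ℝ) ^ e' := by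
  refine ⟨max e (1 / 2), max C 0, lt_max_of_lt_right (by norm_num), max_lt he1 (by norm_num),
    fun R hR => (hC R hR).trans ?_⟩
  have hR1 : (1 : ℝ) ≤ R := by exact_mod_cast hR
  exact mul_le_mul (le_max_left _ _) (Real.rpow_le_rpow_of_exponent_le hR1 (le_max_left _ _))
    (Real.rpow_nonneg (by linarith) _) (le_max_right _ _)

theorem gp2 : S_GP2 := by
  classical
  intro ρ h56 h1' e C he1 hC q M _ _ b hb K
  obtain ⟨e, C, he0, he1, hC⟩ := weaken he1 hC
  by_contra hcon
  push Not at hcon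
  have hρ : 0 < ρ.re := by linarith
  have hρ1 : ρ ≠ 1 := by
    rintro rfl
    simp at h1'
  have hM0 : 0 < M := Nat.pos_of_ne_zero (NeZero.ne M)
  -- the exceptional levels
  have key : ∀ P : ℕ, P.Prime → K < P → M < P → P ≡ b [MOD q] →
      ∃ r, P ∣ r + 1 ∧ r + 1 ∣ M * P ∧ 1 ≤ nn ρ r := by
    intro P hP hKP hMP hPb
    have hPM : ¬ P ∣ M := fun h => by
      have := Nat.le_of_dvd hM0 h
      omega
    obtain ⟨inst, χ, hχ, hψ⟩ := hcon P hP hKP hPM hPb
    have hc : P ∣ χ.conductor := by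
      by_contra hc
      have h1 : Nat.Coprime χ.conductor P := ((Nat.Prime.coprime_iff_not_dvd hP).2 hc).symm
      have h2 : χ.conductor ∣ M := h1.dvd_of_dvd_mul_right χ.conductor_dvd_level
      have h3 : FactorsThrough χ M :=
        (mem_conductorSet_iff_conductor_dvd χ (Dvd.intro P rfl : M ∣ M * P)).2 h2
      exact hψ h3.χ₀ h3.eq_changeLevel
    have h0 : χ.conductor ≠ 0 := conductor_ne_zero χ
    obtain ⟨r, hr⟩ : ∃ r, χ.conductor = r + 1 := ⟨χ.conductor - 1, by omega⟩
    have hf : FactorsThrough χ (r + 1) := hr ▸ factorsThrough_conductor χ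
    have hdvd : r + 1 ∣ M * P := hf.dvd
    refine ⟨r, hr ▸ hc, hdvd, ?_⟩
    have hmem : hf.χ₀ ∈ {χ : DirichletCharacter ℂ (r + 1) |
        χ.IsPrimitive ∧ DirichletCharacter.LFunction χ ρ = 0} := by
      refine ⟨?_, ?_⟩
      · rw [isPrimitive_def]
        have a1 := conductor_changeLevel hf.χ₀ hdvd
        have a2 : conductor (changeLevel hdvd hf.χ₀) = conductor χ :=
          congrArg conductor hf.eq_changeLevel.symm
        rw [← a1, a2, hr]
      · rw [← zero_iff hdvd hf.χ₀ hρ hρ1, ← hf.eq_changeLevel]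
        exact hχ
    exact Nat.one_le_iff_ne_zero.mpr ((Set.ncard_pos (Set.toFinite _)).mpr ⟨_, hmem⟩).ne'
  set B : Set ℕ := {P | P.Prime ∧ K < P ∧ M < P ∧ P ≡ b [MOD q]} with hB
  choose! r hr using fun (P : ℕ) (hP : P ∈ B) => key P hP.1 hP.2.1 hP.2.2.1 hP.2.2.2
  have hinj : ∀ P ∈ B, ∀ P' ∈ B, r P = r P' → P = P' := by
    intro P hP P' hP' h
    have h1 : P ∣ M * P' := by
      have h2 := (hr P hP).1
      rw [h] at h2
      exact h2.trans (hr P' hP').2.1
    rcases (Nat.Prime.dvd_mul hP.1).1 h1 with h2 | h2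
    · have := Nat.le_of_dvd hM0 h2
      have := hP.2.2.1
      omega
    · exact (Nat.prime_dvd_prime_iff_eq hP.1 hP'.1).1 h2
  -- counting
  have hcount : ∀ n ∈ B, ((((range (n + 1)).filter (· ∈ B)).card : ℕ) : ℝ) ≤
      (|C| * (M : ℝ) ^ e) * (n : ℝ) ^ e := by
    intro n hn
    have hn0 : 0 < n := hn.1.pos
    have h1 : ((range (n + 1)).filter (· ∈ B)).card ≤
        ((range (M * n)).filter fun j => 1 ≤ nn ρ j).card := by
      refine Finset.card_le_card_of_injOn r ?_ ?_
      · intro P hP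
        rw [mem_coe, mem_filter, mem_range] at hP
        rw [mem_coe, mem_filter, mem_range]
        obtain ⟨-, h3, h4⟩ := hr P hP.2
        refine ⟨?_, h4⟩
        have h5 : r P + 1 ≤ M * P := Nat.le_of_dvd (Nat.mul_pos hM0 hP.2.1.pos) h3
        have h6 : M * P ≤ M * n := Nat.mul_le_mul_left M (by omega)
        omega
      · intro P hP P' hP' h
        rw [mem_coe, mem_filter] at hP hP'
        exact hinj P hP.2 P' hP'.2 h
    have h2 : ((range (M * n)).filter fun j => 1 ≤ nn ρ j).card ≤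
        ∑ j ∈ range (M * n), nn ρ j := by
      rw [Finset.card_eq_sum_ones]
      calc ∑ j ∈ (range (M * n)).filter (fun j => 1 ≤ nn ρ j), 1
          ≤ ∑ j ∈ (range (M * n)).filter (fun j => 1 ≤ nn ρ j), nn ρ j :=
            sum_le_sum fun j hj => (mem_filter.1 hj).2
        _ ≤ ∑ j ∈ range (M * n), nn ρ j := sum_le_sum_of_subset (filter_subset _ _)
    have h3 : ∑ j ∈ range (M * n), (nn ρ j : ℝ) ≤ C * ((M * n : ℕ) : ℝ) ^ e :=
      hC (M * n) (Nat.mul_pos hM0 hn0)
    have h4 : ((((range (n + 1)).filter (· ∈ B)).card : ℕ) : ℝ) ≤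
        ∑ j ∈ range (M * n), (nn ρ j : ℝ) := by
      exact_mod_cast h1.trans h2
    refine (h4.trans h3).trans ?_
    rw [Nat.cast_mul, Real.mul_rpow (by positivity) (by positivity), ← mul_assoc]
    refine mul_le_mul_of_nonneg_right ?_ (by positivity)
    exact mul_le_mul_of_nonneg_right (le_abs_self C) (by positivity)
  have hB0 : (0 : ℕ) ∉ B := fun h => Nat.not_prime_zero h.1
  have hsum := summable_thin B hB0 _ e he0 he1 hcount
  have hunit : IsUnit (b : ZMod q) := (ZMod.isUnit_iff_coprime b q).mpr hb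
  apply ArithmeticFunction.vonMangoldt.not_summable_residueClass_prime_div hunit
  have hsum2 : Summable (B.indicator fun n : ℕ => Real.log n / (n : ℝ)) :=
    summable_subtype_iff_indicator.mp hsum
  refine Summable.of_norm_bounded_eventually_nat hsum2 ?_
  filter_upwards [eventually_gt_atTop (K + M)] with n hn
  by_cases hp : n.Prime
  · rw [if_pos hp]
    by_cases hnb : (n : ZMod q) = b
    · have hnB : n ∈ B := by
        refine ⟨hp, by omega, by omega, ?_⟩
        exact (ZMod.natCast_eq_natCast_iff n b q).mp hnb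
      rw [Set.indicator_of_mem hnB]
      have h1 : ArithmeticFunction.vonMangoldt.residueClass (b : ZMod q) n = Real.log n := by
        rw [ArithmeticFunction.vonMangoldt.residueClass, Set.indicator_of_mem
          (show n ∈ {n : ℕ | (n : ZMod q) = b} from hnb),
          ArithmeticFunction.vonMangoldt_apply_prime hp]
      rw [h1, Real.norm_of_nonneg (div_nonneg (Real.log_natCast_nonneg _) (Nat.cast_nonneg _))]
    · have h1 : ArithmeticFunction.vonMangoldt.residueClass (b : ZMod q) n = 0 := by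
        rw [ArithmeticFunction.vonMangoldt.residueClass]
        exact Set.indicator_of_notMem (show n ∉ {n : ℕ | (n : ZMod q) = b} from hnb) _
      rw [h1, zero_div, norm_zero]
      exact Set.indicator_nonneg (fun x _ =>
        div_nonneg (Real.log_natCast_nonneg _) (Nat.cast_nonneg _)) n
  · rw [if_neg hp, zero_div, norm_zero]
    exact Set.indicator_nonneg (fun x _ =>
      div_nonneg (Real.log_natCast_nonneg _) (Nat.cast_nonneg _)) n

open Classical in
/-- the sum of the reciprocals of the conductors of the primitive characters vanishing at `ρ` -/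
theorem summable_RR2 (ρ : ℂ) {e C : ℝ} (he0 : 0 < e) (he1 : e < 1)
    (hC : ∀ R : ℕ, 1 ≤ R → Cnt ρ R ≤ C * (R : ℝ) ^ e) :
    Summable fun r : ℕ => if RR ρ r then 1 / (r : ℝ) else 0 := by
  set B : Set ℕ := {r | 3 ≤ r ∧ RR ρ r} with hB
  have hcount : ∀ n ∈ B, ((((range (n + 1)).filter (· ∈ B)).card : ℕ) : ℝ) ≤
      C * (n : ℝ) ^ e := by
    intro n hn
    have h1 : ((range (n + 1)).filter (· ∈ B)).card ≤
        ((range n).filter fun j => 1 ≤ nn ρ j).card := by
      refine Finset.card_le_card_of_injOn (fun r => r - 1) ?_ ?_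
      · intro r hr
        rw [mem_coe, mem_filter, mem_range] at hr
        obtain ⟨hr1, hr3, inst, χ, hp, hL⟩ := hr
        obtain ⟨j, rfl⟩ : ∃ j, r = j + 1 := ⟨r - 1, by omega⟩
        rw [mem_coe, mem_filter, mem_range]
        simp only [Nat.add_sub_cancel]
        refine ⟨by omega, ?_⟩
        have hmem : χ ∈ {χ : DirichletCharacter ℂ (j + 1) |
            χ.IsPrimitive ∧ DirichletCharacter.LFunction χ ρ = 0} := ⟨hp, hL⟩
        exact Nat.one_le_iff_ne_zero.mpr ((Set.ncard_pos (Set.toFinite _)).mpr ⟨_, hmem⟩).ne'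
      · intro r hr r' hr' h
        rw [mem_coe, mem_filter] at hr hr'
        have h3 := hr.2.1
        have h4 := hr'.2.1
        simp only at h
        omega
    have h2 : ((range n).filter fun j => 1 ≤ nn ρ j).card ≤ ∑ j ∈ range n, nn ρ j := by
      rw [Finset.card_eq_sum_ones]
      calc ∑ j ∈ (range n).filter (fun j => 1 ≤ nn ρ j), 1
          ≤ ∑ j ∈ (range n).filter (fun j => 1 ≤ nn ρ j), nn ρ j :=
            sum_le_sum fun j hj => (mem_filter.1 hj).2
        _ ≤ ∑ j ∈ range n, nn ρ j := sum_le_sum_of_subset (filter_subset _ _)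
    have h3 : ∑ j ∈ range n, (nn ρ j : ℝ) ≤ C * (n : ℝ) ^ e :=
      hC n (by have := hn.1; omega)
    refine le_trans ?_ h3
    exact_mod_cast h1.trans h2
  have hB0 : (0 : ℕ) ∉ B := fun h => by
    have := h.1
    omega
  have hsum := summable_thin B hB0 _ e he0 he1 hcount
  have hsum2 : Summable (B.indicator fun n : ℕ => Real.log n / (n : ℝ)) :=
    summable_subtype_iff_indicator.mp hsum
  refine Summable.of_norm_bounded_eventually_nat hsum2 ?_
  filter_upwards [eventually_gt_atTop 3] with n hn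
  by_cases hr : RR ρ n
  · rw [if_pos hr, Set.indicator_of_mem (show n ∈ B from ⟨hn.le, hr⟩),
      Real.norm_of_nonneg (by positivity)]
    refine div_le_div_of_nonneg_right ?_ (Nat.cast_nonneg _)
    rw [← Real.log_exp 1]
    refine Real.log_le_log (Real.exp_pos 1) ?_
    have h5 : (3 : ℝ) < n := by exact_mod_cast hn
    have := Real.exp_one_lt_d9
    linarith
  · rw [if_neg hr, norm_zero]
    exact Set.indicator_nonneg (fun x _ =>
      div_nonneg (Real.log_natCast_nonneg _) (Nat.cast_nonneg _)) n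

/-- (DC) -/
theorem dc2 : S_DC2 := by
  classical
  intro ρ h56 h1 e C he1 hC M hM
  obtain ⟨e, C, he0, he1, hC⟩ := weaken he1 hC
  have hs := summable_RR2 ρ he0 he1 hC
  have h2 : ∀ e ∈ M.divisors, Summable fun d : ℕ =>
      if RR ρ (d * e) then 1 / (d : ℝ) else 0 := by
    intro e he
    have he0 : 0 < e := Nat.pos_of_mem_divisors he
    have he' : (e : ℝ) ≠ 0 := by exact_mod_cast he0.ne'
    have h3 := (hs.comp_injective (i := fun d : ℕ => d * e)
      (fun a b h => Nat.eq_of_mul_eq_mul_right he0 h)).mul_left (e : ℝ)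
    refine h3.congr ?_
    intro d
    simp only [Function.comp]
    split_ifs
    · push_cast
      by_cases hd : d = 0
      · simp [hd]
      · have hd' : (d : ℝ) ≠ 0 := by exact_mod_cast hd
        field_simp
    · simp
  have h4 := summable_sum h2
  refine Summable.of_nonneg_of_le (fun d => by split_ifs <;> positivity) (fun d => ?_) h4
  have h5 : ∀ e ∈ M.divisors, (0 : ℝ) ≤ if RR ρ (d * e) then 1 / (d : ℝ) else 0 := by
    intro e _
    split_ifs <;> positivity
  split_ifs with h
  · obtain ⟨e, he, hr⟩ := h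
    have h6 := single_le_sum (f := fun e => if RR ρ (d * e) then 1 / (d : ℝ) else 0) h5
      (Nat.mem_divisors.2 ⟨he, hM⟩)
    simp only [if_pos hr] at h6
    exact h6
  · exact sum_nonneg h5

end Pool.Agent.T9h54.FF
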