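import Pool.Agent.T9h54.FF.Fin
import Pool.Agent.T9h54.FF.Gp2
import Pool.Agent.T9h31.FF.E2k2

/-!
# Project FF: assembly with the better zero count (E1H)
-/

set_option autoImplicit false

namespace Pool.Agent.T9h54.FF

open Finset Filter Topology DirichletCharacter
open Pool.Agent.T9h54.LZ

theorem at11 (hE : S_E1H) (ρ : ℂ) (h1 : 11 / 14 < ρ.re) (h2 : ρ.re < 1) : GPat ρ ∧ DCat ρ := by
  obtain ⟨e, he1, he2⟩ := exists_between (show max (16 * (1 - ρ.re) / (5 - 2 * ρ.re))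
      (3 * (1 - ρ.re) / ρ.re) < 1 by
    refine max_lt ?_ ?_
    · rw [div_lt_one (by linarith)]; linarith
    · rw [div_lt_one (by linarith)]; linarith)
  obtain ⟨C, hC⟩ := hE ρ e (by linarith) h2 (lt_of_le_of_lt (le_max_left _ _) he1)
    (lt_of_le_of_lt (le_max_right _ _) he1)
  exact ⟨gp2 ρ (by linarith) h2 e C he2 hC, dc2 ρ (by linarith) h2 e C he2 hC⟩

theorem e2_11 (hE : S_E1H) {a κ : ℝ} (hκ : 1 / 2 < κ) (hκ1 : κ ≤ 1)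
    (ha1 : (27 - 10 * κ) / (30 - 4 * κ) ≤ a) (ha2 : 6 / (7 + 2 * κ) ≤ a) (q : ℕ) [NeZero q] (ρ : ℂ)
    (hρ : a < ρ.re) (hρ1 : ρ.re < 1) : ∃ δ : ℝ, 0 < δ ∧ ∀ K : ℕ,
      ∃ P : ℕ, P.Prime ∧ K < P ∧ ¬ P ∣ q ∧ ∀ [NeZero (q * P)],
      (Set.ncard {χ : DirichletCharacter ℂ (q * P) | DirichletCharacter.LFunction χ ρ = 0} : ℝ) ≤
        (P : ℝ) ^ (κ - 1 / 2 - δ) := by
  rw [div_le_iff₀ (by linarith)] at ha1 ha2
  have h23 : 2 / 3 ≤ a := by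
    by_contra hc
    push Not at hc
    nlinarith
  obtain ⟨e, he1, he2⟩ := exists_between (show max (16 * (1 - ρ.re) / (5 - 2 * ρ.re))
      (3 * (1 - ρ.re) / ρ.re) < κ + 1 / 2 by
    refine max_lt ?_ ?_
    · rw [div_lt_iff₀ (by linarith)]
      have h3 : 16 * (1 - ρ.re) - (κ + 1 / 2) * (5 - 2 * ρ.re) =
        (16 * (1 - a) - (κ + 1 / 2) * (5 - 2 * a)) - (15 - 2 * κ) * (ρ.re - a) := by ring
      have h4 : 0 < (15 - 2 * κ) * (ρ.re - a) := mul_pos (by linarith) (by linarith)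
      linarith
    · rw [div_lt_iff₀ (by linarith)]
      have h3 : 3 * (1 - ρ.re) - (κ + 1 / 2) * ρ.re =
        (3 * (1 - a) - (κ + 1 / 2) * a) - (κ + 7 / 2) * (ρ.re - a) := by ring
      have h4 : 0 < (κ + 7 / 2) * (ρ.re - a) := mul_pos (by linarith) (by linarith)
      linarith)
  obtain ⟨C, hC⟩ := hE ρ e (by linarith) hρ1 (lt_of_le_of_lt (le_max_left _ _) he1)
    (lt_of_le_of_lt (le_max_right _ _) he1)
  exact Pool.Agent.T9h31.FF.e2k2 q ρ κ e C hκ hκ1 he2 (by linarith) hρ1 hC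

/-- (C), with (E1H) -/
theorem finC11 (hE : S_E1H) {a κ : ℝ} (hκ : 1 / 2 < κ) (hκ1 : κ ≤ 1)
    (ha1 : (27 - 10 * κ) / (30 - 4 * κ) ≤ a) (ha2 : 6 / (7 + 2 * κ) ≤ a)
    (h : ∀ᶠ Q : ℕ in atTop, ∃ A : ℕ, ∀ j : ℕ, j.Coprime Q → A < j → (j : ℝ) ≤ A + (Q : ℝ) ^ κ →
      GrowthAt a ((j : ℝ) / (Q : ℝ))) : ZeroFree a := by
  have h1 : (1 : ℝ) / 2 ≤ 6 / (7 + 2 * κ) := by
    rw [div_le_div_iff₀ (by norm_num) (by linarith)]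
    linarith
  exact topC Pool.Agent.T9h41.FF.gk (h1.trans ha2) hκ hκ1
    (fun q _ ρ hρ hρ1 => e2_11 hE hκ hκ1 ha1 ha2 q ρ hρ hρ1) h

/-- (E2) for `Re ρ > 2/3` -/
theorem e2_23 (hE : S_E1H) (q : ℕ) [NeZero q] (ρ : ℂ) (h1 : 2 / 3 < ρ.re) (h2 : ρ.re < 1) :
    ∃ δ : ℝ, 0 < δ ∧ ∀ K : ℕ, ∃ P : ℕ, P.Prime ∧ K < P ∧ ¬ P ∣ q ∧ ∀ [NeZero (q * P)],
    (Set.ncard {χ : DirichletCharacter ℂ (q * P) | DirichletCharacter.LFunction χ ρ = 0} : ℝ) ≤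
      (P : ℝ) ^ (1 / 2 - δ) := by
  obtain ⟨δ, hδ, h⟩ := e2_11 hE (κ := 1) (a := 2 / 3) (by norm_num) le_rfl (by norm_num)
    (by norm_num) q ρ h1 h2
  refine ⟨δ, hδ, fun K => ?_⟩
  obtain ⟨P, hP, hK, hq, hc⟩ := h K
  refine ⟨P, hP, hK, hq, ?_⟩
  intro hN
  have := @hc hN
  norm_num at this ⊢
  convert this using 2

end Pool.Agent.T9h54.FF
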