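import Pool.Agent.T9h54.FF.Chain

/-!
# Project FF: the induction over a chain of primes in all reduced classes
-/

set_option autoImplicit false

namespace Pool.Agent.T9h54.FF

open Finset Filter Topology DirichletCharacter
open Pool.Agent.T9h54.LZ

theorem alg_step (hALG : S_ALG) {ρ : ℂ} (h1 : 1 / 2 < ρ.re) (h2 : ρ.re < 1) {q : ℕ} [NeZero q]
    (b : (ZMod q)ˣ) (w : DirichletCharacter ℂ q → ℂ) (S : Set ℕ) (hS : S.Infinite)
    (hP : ∀ P ∈ S, ∑ χ : DirichletCharacter ℂ q, w χ * hf (χ (b : ZMod q)) P ρ = 0) (k : ℕ) :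
    ∑ χ : DirichletCharacter ℂ q, w χ * χ (b : ZMod q) ^ k = 0 := by
  classical
  set s : Finset ℂ := univ.image fun χ : DirichletCharacter ℂ q => χ (b : ZMod q) with hs
  have hmaps : ∀ χ ∈ (univ : Finset (DirichletCharacter ℂ q)), χ (b : ZMod q) ∈ s := by
    intro χ _
    rw [hs]
    exact mem_image_of_mem _ (mem_univ χ)
  have key : ∀ z ∈ s, ∑ χ ∈ univ.filter (fun χ : DirichletCharacter ℂ q => χ (b : ZMod q) = z), w χ = 0 := by
    refine hALG ρ h1 h2 s (fun z => ∑ χ ∈ univ.filter (fun χ : DirichletCharacter ℂ q =>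
      χ (b : ZMod q) = z), w χ) ?_ S hS ?_
    · intro z hz
      rw [hs, mem_image] at hz
      obtain ⟨χ, -, rfl⟩ := hz
      exact DirichletCharacter.unit_norm_eq_one χ b
    · intro P hPS
      rw [← hP P hPS, ← Finset.sum_fiberwise_of_maps_to hmaps]
      refine Finset.sum_congr rfl fun z _ => ?_
      rw [Finset.sum_mul]
      refine Finset.sum_congr rfl fun χ hχ => ?_
      rw [(mem_filter.1 hχ).2]
  rw [← Finset.sum_fiberwise_of_maps_to hmaps]
  refine Finset.sum_eq_zero fun z hz => ?_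
  have h3 : ∀ χ ∈ univ.filter (fun χ : DirichletCharacter ℂ q => χ (b : ZMod q) = z),
      w χ * χ (b : ZMod q) ^ k = w χ * z ^ k := by
    intro χ hχ
    rw [(mem_filter.1 hχ).2]
  rw [Finset.sum_congr rfl h3, ← Finset.sum_mul, key z hz, zero_mul]

/-- the products of the powers of the elements of a list -/
def gen {q : ℕ} : List (ZMod q)ˣ → Set (ZMod q)ˣ
  | [] => {1}
  | b :: bs => {m | ∃ n ∈ gen bs, ∃ k : ℕ, m = n * b ^ k}

theorem one_mem_gen {q : ℕ} : ∀ bs : List (ZMod q)ˣ, (1 : (ZMod q)ˣ) ∈ gen bs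
  | [] => rfl
  | _ :: bs => ⟨1, one_mem_gen bs, 0, by simp⟩

theorem mem_gen {q : ℕ} (b : (ZMod q)ˣ) : ∀ bs : List (ZMod q)ˣ, b ∈ bs → b ∈ gen bs
  | [], h => absurd h List.not_mem_nil
  | b' :: bs, h => by
    rcases List.mem_cons.1 h with h1 | h1
    · exact ⟨1, one_mem_gen bs, 1, by rw [h1]; simp⟩
    · exact ⟨b, mem_gen b bs h1, 0, by simp⟩

theorem ind (hGP : S_GP) (hALG : S_ALG) {ρ : ℂ} (h1 : 5 / 6 < ρ.re) (h2 : ρ.re < 1) {q : ℕ}
    [NeZero q] (c : DirichletCharacter ℂ q → ℂ) (Q0 : ℕ)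
    (hrel : ∀ l : List ℕ, Good ρ q l → Q0 ≤ md q l → ∃ j : ℕ, j.Coprime (md q l) ∧
      ∑ χ : DirichletCharacter ℂ q, χ (j : ZMod q) * c χ *
        (l.map fun P : ℕ => hf (χ (P : ZMod q)) P ρ).prod = 0) :
    ∀ bs : List (ZMod q)ˣ, ∀ l : List ℕ, Good ρ q l → (bs = [] → Q0 ≤ md q l) →
      ∃ u : (ZMod q)ˣ, ∀ n ∈ gen bs, ∑ χ : DirichletCharacter ℂ q,
        χ ((u * n : (ZMod q)ˣ) : ZMod q) * c χ *
          (l.map fun P : ℕ => hf (χ (P : ZMod q)) P ρ).prod = 0 := by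
  classical
  intro bs
  induction bs with
  | nil =>
    intro l hl hQ
    obtain ⟨j, hj, hj2⟩ := hrel l hl (hQ rfl)
    have hjq : j.Coprime q := hj.coprime_dvd_right (dvd_md q l)
    refine ⟨ZMod.unitOfCoprime j hjq, fun n hn => ?_⟩
    have hn1 : n = 1 := hn
    rw [hn1, mul_one, ZMod.coe_unitOfCoprime]
    exact hj2
  | cons b bs ih =>
    intro l hl _
    have hM : md q l ≠ 0 := md_ne (NeZero.ne q) l hl
    have : NeZero (md q l) := ⟨hM⟩
    set T : (ZMod q)ˣ → ℕ → Prop := fun u P => ∀ n ∈ gen bs, ∑ χ : DirichletCharacter ℂ q,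
        χ ((u * n : (ZMod q)ˣ) : ZMod q) * c χ *
          ((P :: l).map fun P : ℕ => hf (χ (P : ZMod q)) P ρ).prod = 0 with hT
    set Ps : Set ℕ := {P | P.Prime ∧ (P : ZMod q) = (b : ZMod q) ∧ ∃ u, T u P} with hPs
    have hinf : Ps.Infinite := by
      refine Set.infinite_of_not_bddAbove ?_
      rintro ⟨K, hK⟩
      obtain ⟨P, hP, hKP, hPM, hPb, hPg⟩ := hGP q (md q l) (b : ZMod q).val ρ h1 h2
        (ZMod.val_coe_unit_coprime b) (max K Q0)
      have hg : Good ρ q (P :: l) := ⟨hl, hP, hPM, hPg⟩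
      have hQ : Q0 ≤ md q (P :: l) := by
        have e1 : md q (P :: l) = md q l * P := rfl
        rw [e1]
        have e2 : P ≤ md q l * P := Nat.le_mul_of_pos_left P (Nat.pos_of_ne_zero hM)
        have e3 := le_max_right K Q0
        omega
      obtain ⟨u, hu⟩ := ih (P :: l) hg fun _ => hQ
      have hPb' : (P : ZMod q) = (b : ZMod q) := by
        have e1 := (ZMod.natCast_eq_natCast_iff P (b : ZMod q).val q).2 hPb
        rw [e1, ZMod.natCast_zmod_val]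
      have h3 : P ∈ Ps := ⟨hP, hPb', u, hu⟩
      have h4 := hK h3
      have h5 := le_max_left K Q0
      omega
    obtain ⟨u, hu⟩ : ∃ u : (ZMod q)ˣ, {P : ℕ | P.Prime ∧ (P : ZMod q) = (b : ZMod q) ∧ T u P}.Infinite := by
      by_contra hc
      push Not at hc
      apply hinf
      have hsub : Ps ⊆ ⋃ u : (ZMod q)ˣ, {P : ℕ | P.Prime ∧ (P : ZMod q) = (b : ZMod q) ∧ T u P} := by
        rintro P ⟨hP1, hP2, u, hu⟩
        rw [Set.mem_iUnion]
        exact ⟨u, hP1, hP2, hu⟩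
      exact (Set.finite_iUnion hc).subset hsub
    refine ⟨u, ?_⟩
    rintro m ⟨n, hn, k, rfl⟩
    have h3 := alg_step hALG (by linarith) h2 b (fun χ => χ ((u * n : (ZMod q)ˣ) : ZMod q) * c χ *
      (l.map fun P : ℕ => hf (χ (P : ZMod q)) P ρ).prod) _ hu (by
        rintro P ⟨-, hPb, hPT⟩
        have h4 := hPT n hn
        rw [← h4]
        refine Finset.sum_congr rfl fun χ _ => ?_
        rw [List.map_cons, List.prod_cons, hPb]
        ring) k
    rw [← h3]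
    refine Finset.sum_congr rfl fun χ _ => ?_
    push_cast
    rw [map_mul, map_mul, map_mul, map_pow]
    ring

/-- linear independence of the characters -/
theorem lin_indep {q : ℕ} [NeZero q] (c : DirichletCharacter ℂ q → ℂ)
    (h : ∀ v : (ZMod q)ˣ, ∑ χ : DirichletCharacter ℂ q, χ (v : ZMod q) * c χ = 0) : ∀ χ, c χ = 0 := by
  have h1 := (linearIndependent_monoidHom (ZMod q) ℂ).comp
    (fun χ : DirichletCharacter ℂ q => χ.toMonoidHom) (by
      intro χ ψ hh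
      ext v
      have := DFunLike.congr_fun hh (v : ZMod q)
      exact this)
  refine Fintype.linearIndependent_iff.1 h1 c ?_
  funext x
  rw [Finset.sum_apply]
  simp only [Function.comp, Pi.smul_apply, smul_eq_mul, Pi.zero_apply]
  by_cases hx : IsUnit x
  · obtain ⟨v, rfl⟩ := hx
    rw [← h v]
    refine Finset.sum_congr rfl fun χ _ => ?_
    rw [mul_comm]
    rfl
  · refine Finset.sum_eq_zero fun χ _ => ?_
    have : χ.toMonoidHom x = 0 := χ.map_nonunit hx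
    rw [this, mul_zero]

/-- **No zero.** -/
theorem no_zero (hGP : S_GP) (hALG : S_ALG) (hEL : S_EL) {a : ℝ} (ha : 5 / 6 ≤ a) (ha1 : a < 1)
    (J : ℕ → ℕ) (Q0 : ℕ) (hJ : ∀ Q : ℕ, Q0 ≤ Q → 0 < Q → (J Q).Coprime Q ∧ ∃ C : ℝ, ∀ R : ℕ, 1 ≤ R →
      ‖F R ((J Q : ℝ) / (Q : ℝ))‖ ≤ C * (R : ℝ) ^ a)
    {q : ℕ} [NeZero q] {χ₀ : DirichletCharacter ℂ q} {ρ : ℂ} (hρ : a < ρ.re)
    (hρ1 : ρ.re < 1) (h0 : LFunction χ₀ ρ = 0) (hE : EE χ₀ ρ ≠ 0) : False := by
  have hρne : ρ ≠ 1 := by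
    rintro rfl
    simp at hρ1
  obtain ⟨σ, H, c, hσ, hH, ⟨χ₁, hc1⟩, hc⟩ := seq hρne χ₀ h0 hE
  apply hc1
  have h1 := ind hGP hALG (ρ := ρ) (by linarith) hρ1 c Q0 (by
    intro l hl hQ
    have hM : md q l ≠ 0 := md_ne (NeZero.ne q) l hl
    obtain ⟨hj, hb⟩ := hJ (md q l) hQ (Nat.pos_of_ne_zero hM)
    exact ⟨J (md q l), hj, rel hEL (by linarith) ha1 hρ hρne hσ hH hc l hl _ hj hb⟩)
    ((univ : Finset (ZMod q)ˣ).toList) [] trivial (by
      intro h
      exfalso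
      have h2 : (1 : (ZMod q)ˣ) ∈ (univ : Finset (ZMod q)ˣ).toList := mem_toList.2 (mem_univ _)
      rw [h] at h2
      exact absurd h2 List.not_mem_nil)
  obtain ⟨u, hu⟩ := h1
  refine lin_indep c (fun v => ?_) χ₁
  have h2 := hu (u⁻¹ * v) (mem_gen _ _ (mem_toList.2 (mem_univ _)))
  simp only [List.map_nil, List.prod_nil, mul_one, mul_inv_cancel_left] at h2
  exact h2

end Pool.Agent.T9h54.FF
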