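import Pool.Agent.T9h54.LZ.Pole
import Pool.Agent.T9h54.FF.Spec

/-!
# Project FF: the common sequence and the common vector
-/

set_option autoImplicit false

namespace Pool.Agent.T9h54.FF

open Finset Filter Topology DirichletCharacter
open Pool.Agent.T9h54.LZ

/-- a sequence tending to `ρ` along which the normalised quotients converge to a nonzero vector -/
theorem seq {q : ℕ} [NeZero q] {ρ : ℂ} (hρ : ρ ≠ 1) (χ₀ : DirichletCharacter ℂ q)
    (h0 : LFunction χ₀ ρ = 0) (hE : EE χ₀ ρ ≠ 0) :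
    ∃ (σ : ℕ → ℂ) (H : ℕ → ℂ) (c : DirichletCharacter ℂ q → ℂ), Tendsto σ atTop (𝓝[≠] ρ) ∧
      Tendsto H atTop (𝓝 0) ∧ (∃ χ, c χ ≠ 0) ∧
      ∀ χ, Tendsto (fun k => EE χ (σ k) / LFunction χ (σ k) * H k) atTop (𝓝 (c χ)) := by
  classical
  obtain ⟨sq, hsq⟩ : ∃ sq : ℕ → ℂ, sq = fun k : ℕ => ρ + ((1 / ((k : ℝ) + 1) : ℝ) : ℂ) := ⟨_, rfl⟩
  have hlim0 : Tendsto sq atTop (𝓝 ρ) := by
    rw [hsq]
    have h1 : Tendsto (fun k : ℕ => ((1 / ((k : ℝ) + 1) : ℝ) : ℂ)) atTop (𝓝 ((0 : ℝ) : ℂ)) :=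
      (Complex.continuous_ofReal.tendsto 0).comp tendsto_one_div_add_atTop_nhds_zero_nat
    have h2 := h1.const_add ρ
    simpa using h2
  have hsne : ∀ k, sq k ≠ ρ := by
    intro k h
    rw [hsq] at h
    simp only [add_eq_left] at h
    have h3 : (1 / ((k : ℝ) + 1) : ℝ) = 0 := by exact_mod_cast h
    have : (0 : ℝ) < 1 / ((k : ℝ) + 1) := by positivity
    linarith
  have hlim : Tendsto sq atTop (𝓝[≠] ρ) :=
    tendsto_nhdsWithin_iff.2 ⟨hlim0, Eventually.of_forall hsne⟩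
  have hev1 : ∀ᶠ k in atTop, sq k ≠ 1 := hlim0.eventually_ne hρ
  have hevL : ∀ᶠ k in atTop, ∀ χ : DirichletCharacter ℂ q, LFunction χ (sq k) ≠ 0 := by
    rw [eventually_all]
    intro χ
    filter_upwards [hlim.eventually (ev_ne χ ρ), hev1] with k hk hk1 h
    apply hk
    rw [Lt_eq χ hk1, h, mul_zero]
  obtain ⟨h, hh⟩ : ∃ h : ℕ → DirichletCharacter ℂ q → ℂ,
      h = fun k χ => EE χ (sq k) / LFunction χ (sq k) := ⟨_, rfl⟩
  have hLc : ∀ χ : DirichletCharacter ℂ q, Tendsto (fun k => LFunction χ (sq k)) atTop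
      (𝓝 (LFunction χ ρ)) := fun χ =>
    (differentiableAt_LFunction χ ρ (Or.inl hρ)).continuousAt.tendsto.comp hlim0
  have hEc : ∀ χ : DirichletCharacter ℂ q, Tendsto (fun k => EE χ (sq k)) atTop
      (𝓝 (EE χ ρ)) := fun χ => ((EE_diff χ).continuous.tendsto ρ).comp hlim0
  have hinf : Tendsto (fun k => ‖h k χ₀‖) atTop atTop := by
    rw [hh]
    simp only [norm_div]
    have e1 : Tendsto (fun k => ‖LFunction χ₀ (sq k)‖) atTop (𝓝[>] 0) := by
      refine tendsto_nhdsWithin_iff.2 ⟨?_, ?_⟩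
      · have := (hLc χ₀).norm
        rwa [h0, norm_zero] at this
      · filter_upwards [hevL] with k hk
        exact norm_pos_iff.2 (hk χ₀)
    have e2 : Tendsto (fun k => (‖LFunction χ₀ (sq k)‖)⁻¹) atTop atTop :=
      tendsto_inv_nhdsGT_zero.comp e1
    have e3 := (hEc χ₀).norm
    have := Tendsto.pos_mul_atTop (norm_pos_iff.2 hE) e3 e2
    simpa [div_eq_mul_inv] using this
  obtain ⟨H, hH⟩ : ∃ H : ℕ → ℝ, H = fun k => ∑ χ : DirichletCharacter ℂ q, ‖h k χ‖ := ⟨_, rfl⟩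
  have hHle : ∀ k χ, ‖h k χ‖ ≤ H k := by
    intro k χ
    rw [hH]
    exact Finset.single_le_sum (f := fun χ => ‖h k χ‖) (fun _ _ => norm_nonneg _) (mem_univ χ)
  have hHinf : Tendsto H atTop atTop := tendsto_atTop_mono (fun k => hHle k χ₀) hinf
  have hHpos : ∀ᶠ k in atTop, 0 < H k := hHinf.eventually_gt_atTop 0
  have hHc : Tendsto (fun k => ((H k : ℝ) : ℂ)⁻¹) atTop (𝓝 0) := by
    have e1 : Tendsto (fun k => (H k)⁻¹) atTop (𝓝 0) := tendsto_inv_atTop_zero.comp hHinf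
    have e2 := (Complex.continuous_ofReal.tendsto 0).comp e1
    simp only [Complex.ofReal_zero] at e2
    refine e2.congr fun k => ?_
    simp
  obtain ⟨u, hu⟩ : ∃ u : ℕ → DirichletCharacter ℂ q → ℂ,
      u = fun k χ => h k χ * ((H k : ℝ) : ℂ)⁻¹ := ⟨_, rfl⟩
  have huB : ∀ k, u k ∈ Metric.closedBall (0 : DirichletCharacter ℂ q → ℂ) 1 := by
    intro k
    rw [mem_closedBall_zero_iff, pi_norm_le_iff_of_nonneg zero_le_one]
    intro χ
    rw [hu]
    simp only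
    rw [norm_mul, norm_inv, Complex.norm_real, Real.norm_eq_abs]
    have hH0 : 0 ≤ H k := (norm_nonneg _).trans (hHle k χ)
    rw [abs_of_nonneg hH0]
    rcases eq_or_lt_of_le hH0 with h' | h'
    · rw [← h', inv_zero, mul_zero]
      exact zero_le_one
    · rw [mul_inv_le_iff₀ h', one_mul]
      exact hHle k χ
  obtain ⟨g, -, φ, hφ, hg⟩ := (isCompact_closedBall (0 : DirichletCharacter ℂ q → ℂ) 1).tendsto_subseq huB
  have hφt : Tendsto φ atTop atTop := hφ.tendsto_atTop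
  have hgχ : ∀ χ, Tendsto (fun k => u (φ k) χ) atTop (𝓝 (g χ)) := fun χ =>
    (tendsto_pi_nhds.1 hg) χ
  refine ⟨fun k => sq (φ k), fun k => ((H (φ k) : ℝ) : ℂ)⁻¹, g, hlim.comp hφt, hHc.comp hφt, ?_, ?_⟩
  · by_contra hc
    push Not at hc
    have e1 : Tendsto (fun k => ∑ χ : DirichletCharacter ℂ q, ‖u (φ k) χ‖) atTop
        (𝓝 (∑ χ : DirichletCharacter ℂ q, ‖g χ‖)) :=
      tendsto_finset_sum _ fun χ _ => (hgχ χ).norm
    have e2 : ∀ᶠ k in atTop, ∑ χ : DirichletCharacter ℂ q, ‖u (φ k) χ‖ = 1 := by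
      filter_upwards [hφt.eventually hHpos] with k hk
      rw [hu]
      simp only [norm_mul, norm_inv, Complex.norm_real, Real.norm_eq_abs]
      rw [← Finset.sum_mul, abs_of_pos hk]
      have : ∑ χ : DirichletCharacter ℂ q, ‖h (φ k) χ‖ = H (φ k) := by rw [hH]
      rw [this]
      exact mul_inv_cancel₀ hk.ne'
    have e3 : Tendsto (fun k => ∑ χ : DirichletCharacter ℂ q, ‖u (φ k) χ‖) atTop (𝓝 1) :=
      tendsto_const_nhds.congr' (by filter_upwards [e2] with k hk using hk.symm)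
    have e4 := tendsto_nhds_unique e1 e3
    simp only [hc, norm_zero, Finset.sum_const_zero] at e4
    exact zero_ne_one e4
  · intro χ
    have := hgχ χ
    rw [hu, hh] at this
    exact this

end Pool.Agent.T9h54.FF
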