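import Pool.Agent.T9h54.FF.Ind

/-!
# Project FF, second part: a positive proportion of the denominators

Let `ρ` be a zero of a Dirichlet L-function, `Re ρ > 5/6`. Then there is a set of denominators `Q` of positive
lower density such that at EVERY reduced fraction `j / Q` the sum `F_R(j / Q)` is not `O(R^b)` for any `b < Re ρ`.

Proof. `Ind.lean` gives a good chain `l` (modulus `M = md q l`) such that
`V(y) = ∑_χ χ(y) c_χ ∏_{P ∈ l} hf(χ(P), P, ρ) ≠ 0` for all `y`. Let `Q = M m`, `m` squarefree, with large prime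
factors, such that no conductor `r` of a primitive character which vanishes at `ρ` divides `M m` without dividing
`M` (EX: the chain can be continued by the primes of `m`), and `∑_{P | m} P^(Re ρ - 1)` is small (NV: then the new
factor `∏ hf` is almost independent of `χ`). As `∑ 1/r` over the conductors converges for `Re ρ > 5/6` (DC), a sieve
argument (SV) shows that these `m` have positive lower density.
-/

set_option autoImplicit false

namespace Pool.Agent.T9h54.FF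

open Finset

/-- `r` is the conductor of a primitive character whose L-function vanishes at `ρ` -/
def RR (ρ : ℂ) (r : ℕ) : Prop := ∃ (_ : NeZero r) (χ : DirichletCharacter ℂ r),
  χ.IsPrimitive ∧ DirichletCharacter.LFunction χ ρ = 0

open Classical in
/-- (DC) from (E1G): the exponent `8(1-β)/(3-2β)` is `< 1`, so there are at most `C n^e` numbers `r ≤ n` with
`RR ρ r`, `e < 1`; hence at most `τ(M) C (M n)^e` numbers `d ≤ n` with `RR ρ (d e)` for some `e | M`. Compare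
helper69's `summable_thin` (FF/Gp). -/
def S_DC : Prop := ∀ (ρ : ℂ), 5 / 6 < ρ.re → ρ.re < 1 → ∀ M : ℕ, M ≠ 0 →
  Summable fun d : ℕ => if ∃ e, e ∣ M ∧ RR ρ (d * e) then 1 / (d : ℝ) else 0

/-- (SV) Proof. Choose `D ≥ K` with `∑_{d > D} w d / d < 1/8`, `W = D!`. The number of `m ≤ x` prime to `W` is at least
`⌊x/W⌋ φ(W)`. Their divisors `d > 1` are `> D` and prime to `W`; the number of these `m` divisible by `d` is at
most `min(x/d, (x/(dW) + 1) φ(W))`, so at most `2 (x/d) φ(W)/W` for `d ≤ x/W`. So the sum of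
`∑_{d | m} w d` over these `m` is at most `2 x φ(W)/W · 1/8 + x ∑_{d > x/W} w d / d`, and the last term is `o(x)`. -/
def S_SV : Prop := ∀ w : ℕ → ℝ, (∀ d, 0 ≤ w d) → w 1 = 0 → (Summable fun d : ℕ => w d / d) → ∀ K : ℕ,
  ∃ c : ℝ, 0 < c ∧ ∃ x₀ : ℕ, ∀ x : ℕ, x₀ ≤ x → ∃ A : Finset ℕ, c * x ≤ A.card ∧ ∀ m ∈ A, 1 ≤ m ∧ m ≤ x ∧
    (∀ p : ℕ, p.Prime → p ∣ m → K < p) ∧ ∑ d ∈ m.divisors, w d < 1

/-- (EX) Proof, induction on `ps`: a character modulo `md q (ps ++ l) * P = M m P` which vanishes at `ρ` has a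
conductor `r | M m P`, `RR ρ r` (`LFunction_changeLevel`, as in `T9h65.LZ.zero_iff`, `card_V`). With
`g = gcd(r, M)`, `r = g d`, `d | m P`; so `d = 1` and `r | M`, and the character comes from level `M m`. -/
def S_EX : Prop := ∀ (ρ : ℂ) (q : ℕ) [NeZero q] (l : List ℕ), 0 < ρ.re → ρ ≠ 1 → Good ρ q l →
  ∀ ps : List ℕ, ps.Nodup → (∀ P ∈ ps, P.Prime ∧ ¬ P ∣ md q l) →
    (∀ d e : ℕ, 1 < d → d ∣ ps.prod → e ∣ md q l → ¬ RR ρ (d * e)) →
    Good ρ q (ps ++ l) ∧ md q (ps ++ l) = md q l * ps.prod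

/-- (NV) `hf z P ρ = -P^(1-ρ) (1 + η)`, `|η| ≤ B P^(Re ρ - 1)`, for `|z| = 1`; `A = ∏ (-P^(1-ρ))`. -/
def S_NV : Prop := ∀ (ρ : ℂ) (ε : ℝ), 1 / 2 < ρ.re → ρ.re < 1 → 0 < ε → ∃ δ : ℝ, 0 < δ ∧ ∀ ps : List ℕ,
  (∀ P ∈ ps, P.Prime) → (ps.map fun P : ℕ => (P : ℝ) ^ (ρ.re - 1)).sum ≤ δ → ∃ A : ℂ, A ≠ 0 ∧
    ∀ z : ℕ → ℂ, (∀ P ∈ ps, ‖z P‖ = 1) → ‖(ps.map fun P : ℕ => hf (z P) P ρ).prod - A‖ ≤ ε * ‖A‖

end Pool.Agent.T9h54.FF
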